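import Mathlib

/-!
# Bases of maximal weight
-/

set_option autoImplicit false
set_option linter.unusedSectionVars false

namespace Pool.Agent.N91.SL

open Finset

section Exchange

variable (k : Type*) [Field k] {V : Type*} [AddCommGroup V] [Module k V] {B : Type*}

/-- `S` indexes a basis of `V` -/
def IsB (τ : B → V) (S : Finset B) : Prop :=
  Submodule.span k (τ '' (S : Set B)) = ⊤ ∧ S.card = Module.finrank k V

variable {k}

lemma range_coe (τ : B → V) (S : Finset B) : Set.range (fun m : S => τ m) = τ '' (S : Set B) := by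
  ext v
  constructor
  · rintro ⟨m, rfl⟩
    exact ⟨m, m.2, rfl⟩
  · rintro ⟨m, hm, rfl⟩
    exact ⟨⟨m, hm⟩, rfl⟩

variable [FiniteDimensional k V]

lemma IsB.li {τ : B → V} {S : Finset B} (h : IsB k τ S) : LinearIndependent k (fun m : S => τ m) := by
  refine linearIndependent_of_top_le_span_of_card_eq_finrank ?_ ?_
  · rw [range_coe, h.1]
  · rw [Fintype.card_coe, h.2]

/-- the basis -/
noncomputable def IsB.basis {τ : B → V} {S : Finset B} (h : IsB k τ S) : Module.Basis S k V :=
  Module.Basis.mk h.li (by rw [range_coe, h.1])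

lemma IsB.basis_apply {τ : B → V} {S : Finset B} (h : IsB k τ S) (m : S) : h.basis m = τ m := by
  simp [IsB.basis]

/-- coordinates, extended by zero -/
noncomputable def IsB.coord {τ : B → V} {S : Finset B} (h : IsB k τ S) (v : V) (m : B) : k := by
  classical exact if hm : m ∈ S then h.basis.repr v ⟨m, hm⟩ else 0

lemma IsB.coord_of_notMem {τ : B → V} {S : Finset B} (h : IsB k τ S) (v : V) {m : B} (hm : m ∉ S) :
    h.coord v m = 0 := by
  unfold IsB.coord; rw [dif_neg hm]

lemma IsB.coord_coe {τ : B → V} {S : Finset B} (h : IsB k τ S) (v : V) (m : S) :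
    h.coord v m = h.basis.repr v m := by
  unfold IsB.coord; rw [dif_pos m.2]

lemma IsB.sum_coord {τ : B → V} {S : Finset B} (h : IsB k τ S) (v : V) :
    ∑ m ∈ S, h.coord v m • τ m = v := by
  rw [← Finset.sum_coe_sort S (fun m => h.coord v m • τ m)]
  conv_rhs => rw [← h.basis.sum_repr v]
  refine Finset.sum_congr rfl fun m _ => ?_
  rw [h.coord_coe, h.basis_apply]

lemma IsB.coord_self [DecidableEq B] {τ : B → V} {S : Finset B} (h : IsB k τ S) {m : B} (hm : m ∈ S)
    (r : B) : h.coord (τ m) r = if m = r then 1 else 0 := by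
  by_cases hr : r ∈ S
  · have h1 := h.coord_coe (τ m) ⟨r, hr⟩
    have h2 : τ m = h.basis ⟨m, hm⟩ := (h.basis_apply ⟨m, hm⟩).symm
    rw [h1, h2, Module.Basis.repr_self, Finsupp.single_apply]
    simp only [Subtype.mk.injEq]
  · rw [h.coord_of_notMem _ hr, if_neg]
    rintro rfl
    exact hr hm

/-- exchange lemma: in a basis of maximal weight the coordinates of the other vectors have larger weight -/
lemma exchange [DecidableEq B] {τ : B → V} {S B0 : Finset B} (h : IsB k τ S) (hS : S ⊆ B0) (w : B → ℕ)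
    (hw : ∀ a ∈ B0, ∀ b ∈ B0, w a = w b → a = b)
    (hmax : ∀ S' : Finset B, S' ⊆ B0 → IsB k τ S' → ∑ m ∈ S', w m ≤ ∑ m ∈ S, w m)
    {u : B} (hu : u ∈ B0) (huS : u ∉ S) {m : B} (hm : h.coord (τ u) m ≠ 0) : m ∈ S ∧ w u < w m := by
  have hmS : m ∈ S := by
    by_contra hcon
    exact hm (h.coord_of_notMem _ hcon)
  refine ⟨hmS, ?_⟩
  by_contra hcon
  push Not at hcon
  have hne : m ≠ u := by rintro rfl; exact huS hmS
  have hlt : w m < w u := lt_of_le_of_ne hcon (fun h' => hne (hw m (hS hmS) u hu h'))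
  have hu' : u ∉ S.erase m := fun h' => huS (Finset.mem_of_mem_erase h')
  have hB : IsB k τ (insert u (S.erase m)) := by
    constructor
    · rw [eq_top_iff, ← h.1, Submodule.span_le]
      rintro _ ⟨s, hs, rfl⟩
      have hs' : s ∈ S := hs
      by_cases hsm : s = m
      · subst hsm
        have h1 := h.sum_coord (τ u)
        rw [← Finset.add_sum_erase S _ hmS] at h1
        have h2 : τ s = (h.coord (τ u) s)⁻¹ • (τ u - ∑ x ∈ S.erase s, h.coord (τ u) x • τ x) := by
          rw [← eq_sub_of_add_eq h1, smul_smul, inv_mul_cancel₀ hm, one_smul]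
        rw [SetLike.mem_coe, h2]
        refine Submodule.smul_mem _ _ (Submodule.sub_mem _ (Submodule.subset_span
          ⟨u, Finset.mem_coe.2 (Finset.mem_insert_self _ _), rfl⟩) (Submodule.sum_mem _ fun x hx => ?_))
        exact Submodule.smul_mem _ _ (Submodule.subset_span
          ⟨x, Finset.mem_coe.2 (Finset.mem_insert_of_mem hx), rfl⟩)
      · exact Submodule.subset_span ⟨s, Finset.mem_coe.2 (Finset.mem_insert_of_mem
          (Finset.mem_erase.2 ⟨hsm, hs'⟩)), rfl⟩
    · rw [Finset.card_insert_of_notMem hu', Finset.card_erase_of_mem hmS, ← h.2]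
      have : 0 < S.card := Finset.card_pos.2 ⟨m, hmS⟩
      omega
  have h1 := hmax _ (Finset.insert_subset hu ((Finset.erase_subset _ _).trans hS)) hB
  rw [Finset.sum_insert hu', ← Finset.add_sum_erase S _ hmS] at h1
  omega

/-- a combination of vectors with unitriangular coordinates -/
lemma top_coord {S : Finset B} (w : B → ℕ) (hw : ∀ a ∈ S, ∀ b ∈ S, w a = w b → a = b)
    (β : B → B → k) (h1 : ∀ m ∈ S, β m m = 1) (h2 : ∀ m ∈ S, ∀ r ∈ S, β m r ≠ 0 → w r ≤ w m)
    (c : B → k) (hc : ∃ m ∈ S, c m ≠ 0) : ∃ m ∈ S, c m ≠ 0 ∧ ∑ s ∈ S, c s * β s m = c m := by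
  classical
  obtain ⟨m0, hm0, hcm0⟩ := hc
  obtain ⟨m, hm, hmax⟩ := Finset.exists_max_image (S.filter (fun m => c m ≠ 0)) w
    ⟨m0, Finset.mem_filter.2 ⟨hm0, hcm0⟩⟩
  rw [Finset.mem_filter] at hm
  refine ⟨m, hm.1, hm.2, ?_⟩
  rw [Finset.sum_eq_single m]
  · rw [h1 m hm.1, mul_one]
  · intro s hs hsm
    by_contra hcon
    have hcs : c s ≠ 0 := left_ne_zero_of_mul hcon
    have hβ : β s m ≠ 0 := right_ne_zero_of_mul hcon
    have h3 := h2 s hs m hm.1 hβ
    have h4 := hmax s (Finset.mem_filter.2 ⟨hs, hcs⟩)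
    exact hsm (hw s hs m hm.1 (le_antisymm h4 h3))
  · intro h; exact absurd hm.1 h

/-- basis test by a determinant -/
lemma isB_iff_det [DecidableEq B] {S S' : Finset B} (b : Module.Basis S k V) (τ : B → V) (ε : S ≃ S') :
    IsB k τ S' ↔ b.det (fun s => τ (ε s)) ≠ 0 := by
  have hr : Set.range (fun s => τ (ε s)) = τ '' (S' : Set B) := by
    rw [← range_coe]
    exact Function.Surjective.range_comp ε.surjective (fun m : S' => τ m)
  have hcard : S'.card = Module.finrank k V := by
    rw [Module.finrank_eq_card_basis b, ← Fintype.card_coe, Fintype.card_congr ε]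
  rw [← isUnit_iff_ne_zero, ← Module.Basis.is_basis_iff_det, hr]
  constructor
  · intro h
    exact ⟨h.li.comp ε ε.injective, h.1⟩
  · intro h
    exact ⟨h.2, hcard⟩

end Exchange

end Pool.Agent.N91.SL
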