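import Pool.Agent.N91.SL.Comb1

/-!
# The symmetric up-set attached to a Borel type set of exponents
-/

set_option autoImplicit false

namespace Pool.Agent.N91.SL

open Finset

variable {n : ℕ}

/-- prefix sums -/
def P (m : Fin n → ℕ) : Fin n → ℕ := fun i => ∑ l ∈ Finset.Iic i, m l

lemma P_mono (m : Fin n → ℕ) {i j : Fin n} (h : i ≤ j) : P m i ≤ P m j :=
  Finset.sum_le_sum_of_subset (Finset.Iic_subset_Iic.2 h)

lemma P_add (m m' : Fin n → ℕ) : P (m + m') = P m + P m' := by
  funext i; simp [P, Finset.sum_add_distrib]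

lemma P_zero : P (0 : Fin n → ℕ) = 0 := by
  funext i; simp [P]

/-- `P` as a homomorphism -/
def Phom : (Fin n → ℕ) →+ (Fin n → ℕ) where
  toFun := P
  map_zero' := P_zero
  map_add' := P_add

lemma P_single' (i l : Fin n) (c : ℕ) : P (Pi.single i c) l = if i ≤ l then c else 0 := by
  unfold P
  rw [Finset.sum_pi_single']
  simp

lemma P_single (i l : Fin n) : P (Pi.single i 1) l = if i ≤ l then 1 else 0 := P_single' i l 1

lemma P_succ (m : Fin n → ℕ) {i j : Fin n} (h : (i : ℕ) + 1 = j) : P m j = P m i + m j := by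
  unfold P
  have : Finset.Iic j = insert j (Finset.Iic i) := by
    ext l
    simp only [Finset.mem_Iic, Finset.mem_insert, Fin.le_def, Fin.ext_iff]
    omega
  rw [this, Finset.sum_insert, add_comm]
  simp only [Finset.mem_Iic, Fin.le_def]
  omega

lemma P_inj {m m' : Fin n → ℕ} (h : P m = P m') : m = m' := by
  have key : ∀ k : ℕ, ∀ i : Fin n, (i : ℕ) = k → m i = m' i := by
    intro k
    induction k using Nat.strong_induction_on with
    | _ k ih =>
      intro i hi
      have h1 : P m i = P m' i := by rw [h]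
      unfold P at h1
      rw [← Finset.Iio_insert, Finset.sum_insert (by simp), Finset.sum_insert (by simp)] at h1
      have h2 : ∑ l ∈ Finset.Iio i, m l = ∑ l ∈ Finset.Iio i, m' l := by
        refine Finset.sum_congr rfl fun l hl => ih l ?_ l rfl
        have := Finset.mem_Iio.1 hl
        rw [Fin.lt_def] at this
        omega
      omega
  funext i
  exact key i i rfl

/-- differences -/
def Dl (w : Fin n → ℕ) : Fin n → ℕ := fun i =>
  if (i : ℕ) = 0 then w i else w i - w ⟨(i : ℕ) - 1, by omega⟩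

lemma P_Dl {w : Fin n → ℕ} (hw : ∀ i j, i ≤ j → w i ≤ w j) : P (Dl w) = w := by
  have key : ∀ k : ℕ, ∀ i : Fin n, (i : ℕ) = k → P (Dl w) i = w i := by
    intro k
    induction k with
    | zero =>
      intro i hi
      unfold P
      have : Finset.Iic i = {i} := by
        ext l
        simp only [Finset.mem_Iic, Finset.mem_singleton, Fin.le_def, Fin.ext_iff]
        omega
      rw [this, Finset.sum_singleton, Dl, if_pos hi]
    | succ k ih =>
      intro i hi
      have hlt : (i : ℕ) - 1 < n := by omega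
      have h1 := P_succ (Dl w) (i := ⟨(i : ℕ) - 1, hlt⟩) (j := i) (by simp; omega)
      rw [h1, ih ⟨(i : ℕ) - 1, hlt⟩ (by simp; omega), Dl, if_neg (by omega)]
      have := hw ⟨(i : ℕ) - 1, hlt⟩ i (by rw [Fin.le_def]; simp)
      omega
  funext i
  exact key i i rfl

/-- sums of `r` elements of `J` below `m` -/
def SS (J : Set (Fin n → ℕ)) (r : ℕ) (m : Fin n → ℕ) : Prop :=
  ∃ s : Multiset (Fin n → ℕ), Multiset.card s = r ∧ (∀ u ∈ s, u ∈ J) ∧ s.sum ≤ m

lemma SS.mono {J : Set (Fin n → ℕ)} {r : ℕ} {m m' : Fin n → ℕ} (h : SS J r m) (hm : m ≤ m') :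
    SS J r m' := by
  obtain ⟨s, h1, h2, h3⟩ := h
  exact ⟨s, h1, h2, h3.trans hm⟩

lemma SS.add {J : Set (Fin n → ℕ)} {r r' : ℕ} {m m' : Fin n → ℕ} (h : SS J r m) (h' : SS J r' m') :
    SS J (r + r') (m + m') := by
  obtain ⟨s, h1, h2, h3⟩ := h
  obtain ⟨s', h1', h2', h3'⟩ := h'
  refine ⟨s + s', by rw [Multiset.card_add, h1, h1'], ?_, ?_⟩
  · intro u hu
    rcases Multiset.mem_add.1 hu with hu | hu
    · exact h2 u hu
    · exact h2' u hu
  · rw [Multiset.sum_add]
    exact add_le_add h3 h3'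

lemma SS.zero (J : Set (Fin n → ℕ)) (m : Fin n → ℕ) : SS J 0 m :=
  ⟨0, rfl, by simp, by rw [Multiset.sum_zero]; intro i; exact Nat.zero_le _⟩

lemma SS.one {J : Set (Fin n → ℕ)} {m : Fin n → ℕ} (h : m ∈ J) : SS J 1 m :=
  ⟨{m}, rfl, by simpa using h, by simp⟩

lemma SS.nsmul {J : Set (Fin n → ℕ)} {r : ℕ} {m : Fin n → ℕ} (h : SS J r m) (t : ℕ) :
    SS J (t * r) (t • m) := by
  induction t with
  | zero => simpa using SS.zero J _
  | succ t ih =>
    rw [Nat.succ_mul, succ_nsmul]
    exact ih.add h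

lemma SS.sum {J : Set (Fin n → ℕ)} {r : ℕ} (N : ℕ) (a : ℕ → Fin n → ℕ)
    (h : ∀ q, q < N → SS J r (a q)) : SS J (r * N) (∑ q ∈ range N, a q) := by
  induction N with
  | zero => simpa using SS.zero J _
  | succ N ih =>
    rw [Nat.mul_succ, Finset.sum_range_succ]
    exact (ih fun q hq => h q (by omega)).add (h N (by omega))

/-- the integral closure -/
def Jb (J : Set (Fin n → ℕ)) : Set (Fin n → ℕ) := {m | ∃ r : ℕ, 1 ≤ r ∧ SS J r (r • m)}

lemma subset_Jb {J : Set (Fin n → ℕ)} {m : Fin n → ℕ} (h : m ∈ J) : m ∈ Jb J :=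
  ⟨1, le_rfl, by simpa using SS.one h⟩

lemma Jb_up {J : Set (Fin n → ℕ)} {m m' : Fin n → ℕ} (h : m ∈ Jb J) (hm : m ≤ m') : m' ∈ Jb J := by
  obtain ⟨r, h1, h2⟩ := h
  exact ⟨r, h1, h2.mono (nsmul_le_nsmul_right hm r)⟩

/-- move everything from index `j` to index `i` -/
def mv (i j : Fin n) : (Fin n → ℕ) →+ (Fin n → ℕ) where
  toFun u := fun l => if l = j then 0 else if l = i then u i + u j else u l
  map_zero' := by funext l; simp
  map_add' u v := by
    funext l
    simp only [Pi.add_apply]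
    split_ifs
    · rfl
    · ring
    · rfl

lemma mv_apply (i j : Fin n) (u : Fin n → ℕ) (l : Fin n) :
    mv i j u l = if l = j then 0 else if l = i then u i + u j else u l := rfl

/-- Borel type -/
def BT (J : Set (Fin n → ℕ)) : Prop := ∀ u ∈ J, ∀ i j : Fin n, (i : ℕ) + 1 = j → mv i j u ∈ J

lemma Jb_move {J : Set (Fin n → ℕ)} (hJ : BT J) {m m' : Fin n → ℕ} (h : m ∈ Jb J) {i j : Fin n}
    (hij : (i : ℕ) + 1 = j) (hm' : m' + Pi.single j 1 = m + Pi.single i 1) : m' ∈ Jb J := by
  obtain ⟨r, h1, s, h2, h3, h4⟩ := h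
  have hne : i ≠ j := by intro h; rw [h] at hij; omega
  have hmj : m' j + 1 = m j := by
    have := congrFun hm' j
    simp only [Pi.add_apply, Pi.single_eq_same, Pi.single_eq_of_ne (Ne.symm hne)] at this
    omega
  have hmi : m' i = m i + 1 := by
    have := congrFun hm' i
    simp only [Pi.add_apply, Pi.single_eq_same, Pi.single_eq_of_ne hne] at this
    omega
  have hml : ∀ l, l ≠ i → l ≠ j → m' l = m l := by
    intro l hl hl'
    have := congrFun hm' l
    simp only [Pi.add_apply, Pi.single_eq_of_ne hl, Pi.single_eq_of_ne hl'] at this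
    omega
  refine ⟨m j * r, ?_, (m' j) • s + s.map (mv i j), ?_, ?_, ?_⟩
  · have : 1 ≤ m j := by omega
    exact Nat.mul_pos this h1
  · rw [Multiset.card_add, Multiset.card_nsmul, Multiset.card_map, h2, ← hmj]
    ring
  · intro u hu
    rcases Multiset.mem_add.1 hu with hu | hu
    · exact h3 u (Multiset.mem_of_mem_nsmul hu)
    · obtain ⟨v, hv, rfl⟩ := Multiset.mem_map.1 hu
      exact hJ v (h3 v hv) i j hij
  · rw [Multiset.sum_add, Multiset.sum_nsmul, ← map_multiset_sum]
    intro l
    have hS : ∀ l, s.sum l ≤ r * m l := fun l => h4 l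
    simp only [Pi.add_apply, Pi.smul_apply, smul_eq_mul, mv_apply]
    by_cases hlj : l = j
    · subst hlj
      rw [if_pos rfl]
      have := hS l
      calc m' l * s.sum l + 0 ≤ m' l * (r * m l) + 0 := by gcongr
        _ = m l * r * m' l := by ring
    · rw [if_neg hlj]
      by_cases hli : l = i
      · subst hli
        rw [if_pos rfl]
        have := hS l
        have := hS j
        rw [hmi]
        calc m' j * s.sum l + (s.sum l + s.sum j) = (m' j + 1) * s.sum l + s.sum j := by ring
          _ ≤ (m' j + 1) * (r * m l) + r * m j := by gcongr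
          _ = m j * r * (m l + 1) := by rw [hmj]; ring
      · rw [if_neg hli, hml l hli hlj]
        have := hS l
        calc m' j * s.sum l + s.sum l = (m' j + 1) * s.sum l := by ring
          _ ≤ (m' j + 1) * (r * m l) := by gcongr
          _ = m j * r * m l := by rw [hmj]; ring

/-- dominance -/
lemma Jb_dom {J : Set (Fin n → ℕ)} (hJ : BT J) : ∀ (t : ℕ) (m m' : Fin n → ℕ), m ∈ Jb J →
    (∀ i, P m i ≤ P m' i) → ∑ i, (P m' i - P m i) = t → m' ∈ Jb J := by
  classical
  intro t
  induction t using Nat.strong_induction_on with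
  | _ t ih =>
    intro m m' hm hle ht
    by_cases heq : P m = P m'
    · rw [← P_inj heq]; exact hm
    have hne : (univ.filter (fun i => P m i < P m' i)).Nonempty := by
      by_contra hcon
      rw [Finset.not_nonempty_iff_eq_empty, Finset.filter_eq_empty_iff] at hcon
      apply heq
      funext i
      exact le_antisymm (hle i) (not_lt.1 (hcon (Finset.mem_univ i)))
    obtain ⟨i, hi, hmax⟩ := Finset.exists_max_image _ (fun i : Fin n => (i : ℕ)) hne
    rw [Finset.mem_filter] at hi
    -- the raised exponent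
    have hstep : ∀ m'' : Fin n → ℕ, m'' ∈ Jb J → (∀ l, P m'' l = P m l + if l = i then 1 else 0) →
        m' ∈ Jb J := by
      intro m'' hm'' hP
      have hle' : ∀ l, P m'' l ≤ P m' l := by
        intro l
        rw [hP]
        by_cases h : l = i
        · subst h; rw [if_pos rfl]; exact hi.2
        · rw [if_neg h]; exact hle l
      refine ih (∑ l, (P m' l - P m'' l)) ?_ m'' m' hm'' hle' rfl
      rw [← ht]
      refine Finset.sum_lt_sum (fun l _ => ?_) ⟨i, Finset.mem_univ i, ?_⟩
      · rw [hP]; omega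
      · rw [hP, if_pos rfl]; omega
    by_cases hlast : (i : ℕ) + 1 = n
    · refine hstep (m + Pi.single i 1) (Jb_up hm (fun l => by simp)) (fun l => ?_)
      rw [P_add, Pi.add_apply, P_single]
      congr 1
      by_cases h : l = i
      · subst h; simp
      · rw [if_neg h, if_neg]
        rw [Fin.le_def]
        intro h'
        apply h
        rw [Fin.ext_iff]
        omega
    · have hj : (i : ℕ) + 1 < n := by omega
      obtain ⟨j, hij⟩ : ∃ j : Fin n, (i : ℕ) + 1 = j := ⟨⟨i + 1, hj⟩, rfl⟩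
      have h1 : P m j = P m' j := by
        refine le_antisymm (hle j) (not_lt.1 fun hlt => ?_)
        have := hmax j (Finset.mem_filter.2 ⟨Finset.mem_univ j, hlt⟩)
        omega
      have h2 : P m' i ≤ P m' j := P_mono m' (by rw [Fin.le_def]; omega)
      have h3 := P_succ m hij
      have h4 : 1 ≤ m j := by omega
      have hnij : i ≠ j := by intro h; rw [h] at hij; omega
      let m'' : Fin n → ℕ := fun l => if l = j then m j - 1 else if l = i then m i + 1 else m l
      have hm'' : m'' + Pi.single j 1 = m + Pi.single i 1 := by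
        funext l
        simp only [Pi.add_apply, m'']
        by_cases hlj : l = j
        · subst hlj
          rw [if_pos rfl, Pi.single_eq_same, Pi.single_eq_of_ne (Ne.symm hnij)]
          omega
        · rw [if_neg hlj, Pi.single_eq_of_ne hlj]
          by_cases hli : l = i
          · subst hli; rw [if_pos rfl, Pi.single_eq_same, add_zero]
          · rw [if_neg hli, Pi.single_eq_of_ne hli]
      refine hstep m'' (Jb_move hJ hm hij hm'') (fun l => ?_)
      have h5 : P m'' l + P (Pi.single j 1) l = P m l + P (Pi.single i 1) l := by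
        rw [← Pi.add_apply, ← P_add, hm'', P_add, Pi.add_apply]
      rw [P_single, P_single] at h5
      by_cases hli : l = i
      · subst hli
        rw [if_neg (by rw [Fin.le_def]; omega), if_pos le_rfl] at h5
        rw [if_pos rfl]; exact h5
      · rw [if_neg hli]
        by_cases hlj : j ≤ l
        · rw [if_pos hlj, if_pos (le_trans (by rw [Fin.le_def]; omega) hlj)] at h5
          omega
        · rw [if_neg hlj, if_neg] at h5
          · omega
          · intro h'
            apply hli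
            rw [Fin.le_def] at h' hlj
            rw [Fin.ext_iff]
            omega

/-- sorted comparison -/
lemma sort_le {a b : Fin n → ℕ} (ha : ∀ i j, i ≤ j → a i ≤ a j) (hb : ∀ i j, i ≤ j → b i ≤ b j)
    (τ : Equiv.Perm (Fin n)) (h : ∀ l, a l ≤ b (τ l)) (l : Fin n) : a l ≤ b l := by
  by_contra hcon
  push Not at hcon
  have h1 : (Finset.Ici l).card ≤ (Finset.Ioi l).card := by
    refine Finset.card_le_card_of_injOn τ ?_ (τ.injective.injOn)
    intro x hx
    have hx' : l ≤ x := by simpa using hx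
    simp only [Finset.coe_Ioi, Set.mem_Ioi]
    by_contra hcon'
    push Not at hcon'
    have := hb _ _ hcon'
    have := ha _ _ hx'
    have := h x
    omega
  rw [Fin.card_Ici, Fin.card_Ioi] at h1
  have := l.2
  omega

/-- the symmetric up-set -/
def U (J : Set (Fin n → ℕ)) : Set (Fin n → ℕ) :=
  {v | ∃ m ∈ Jb J, ∃ τ : Equiv.Perm (Fin n), ∀ l, P m l ≤ v (τ l)}

lemma U_up {J : Set (Fin n → ℕ)} {v v' : Fin n → ℕ} (h : v ∈ U J) (hv : ∀ l, v l ≤ v' l) : v' ∈ U J := by
  obtain ⟨m, hm, τ, hτ⟩ := h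
  exact ⟨m, hm, τ, fun l => (hτ l).trans (hv _)⟩

lemma U_symm {J : Set (Fin n → ℕ)} {v : Fin n → ℕ} (h : v ∈ U J) (σ : Equiv.Perm (Fin n)) :
    v ∘ σ ∈ U J := by
  obtain ⟨m, hm, τ, hτ⟩ := h
  exact ⟨m, hm, τ.trans σ.symm, fun l => by simpa using hτ l⟩

lemma P_mem_U {J : Set (Fin n → ℕ)} {m : Fin n → ℕ} (h : m ∈ Jb J) : P m ∈ U J :=
  ⟨m, h, Equiv.refl _, fun _ => le_rfl⟩

lemma mem_of_P_mem_U {J : Set (Fin n → ℕ)} (hJ : BT J) {m : Fin n → ℕ} (h : P m ∈ U J) : m ∈ Jb J := by
  obtain ⟨m', hm', τ, hτ⟩ := h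
  exact Jb_dom hJ _ m' m hm' (sort_le (fun i j h => P_mono _ h) (fun i j h => P_mono _ h) τ hτ) rfl

lemma mem_U_of_large {J : Set (Fin n → ℕ)} {D : ℕ} (hD : ∀ m : Fin n → ℕ, D ≤ ∑ i, m i → m ∈ J)
    {v : Fin n → ℕ} {i : Fin n} (hi : D ≤ v i) : v ∈ U J := by
  classical
  have hn : 0 < n := lt_of_le_of_lt (Nat.zero_le _) i.2
  let t : Fin n := ⟨n - 1, by omega⟩
  refine ⟨Pi.single t D, subset_Jb (hD _ (by simp)), Equiv.swap t i, fun l => ?_⟩
  by_cases hl : l = t
  · subst hl
    rw [Equiv.swap_apply_left]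
    refine le_trans ?_ hi
    rw [P_single']
    split_ifs
    · exact le_rfl
    · exact Nat.zero_le _
  · have : P (Pi.single t D) l = 0 := by
      rw [P_single', if_neg]
      rw [Fin.le_def]
      intro h'
      apply hl
      rw [Fin.ext_iff]
      have := l.2
      simp only [t] at h' ⊢
      omega
    rw [this]
    exact Nat.zero_le _

/-- extension of a short word by its maximum -/
def ext {j : ℕ} (v : Fin j → ℕ) : Fin n → ℕ := fun i => if h : (i : ℕ) < j then v ⟨i, h⟩ else univ.sup v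

/-- short words outside `U` -/
def XX (J : Set (Fin n → ℕ)) (j : ℕ) : Set (Fin j → ℕ) := {v | (ext v : Fin n → ℕ) ∉ U J}

lemma XX_finite {J : Set (Fin n → ℕ)} {D : ℕ} (hD : ∀ m : Fin n → ℕ, D ≤ ∑ i, m i → m ∈ J) {j : ℕ}
    (hj : j ≤ n) : (XX J j).Finite := by
  refine Set.Finite.subset (Set.Finite.pi' (fun _ : Fin j => Set.finite_Iio D)) ?_
  intro v hv i
  rw [Set.mem_Iio]
  by_contra hcon
  push Not at hcon
  apply hv
  refine mem_U_of_large hD (i := ⟨i, lt_of_lt_of_le i.2 hj⟩) ?_
  simp only [ext, Fin.is_lt, dite_true]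
  exact hcon

/-- the set of words outside `U`, as a finset -/
noncomputable def X (J : Set (Fin n → ℕ)) (D : ℕ) : Finset (Fin n → ℕ) := by
  classical exact (Fintype.piFinset (fun _ => range D)).filter (fun v => v ∉ U J)

lemma mem_X {J : Set (Fin n → ℕ)} {D : ℕ} (hD : ∀ m : Fin n → ℕ, D ≤ ∑ i, m i → m ∈ J)
    {v : Fin n → ℕ} : v ∈ X J D ↔ v ∉ U J := by
  classical
  unfold X
  rw [Finset.mem_filter, Fintype.mem_piFinset]
  refine ⟨fun h => h.2, fun h => ⟨fun i => ?_, h⟩⟩
  rw [Finset.mem_range]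
  by_contra hcon
  push Not at hcon
  exact h (mem_U_of_large hD hcon)

end Pool.Agent.N91.SL
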