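import Pool.Agent.N91.SL.Alg1
import Pool.Agent.N91.SL.Comb2

/-!
# Weights, monomials and the Borel type property of the generic standard set
-/

set_option autoImplicit false
set_option linter.unusedSectionVars false

namespace Pool.Agent.N91.SL

open Finset

section Weights

variable {n : ℕ}

/-- the weight of an exponent vector -/
def ww (D : ℕ) (m : Fin n → ℕ) : ℕ := ∑ s, m s * D ^ (s : ℕ)

lemma ww_add (D : ℕ) (m m' : Fin n → ℕ) : ww D (m + m') = ww D m + ww D m' := by
  simp [ww, add_mul, Finset.sum_add_distrib]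

lemma ww_single (D : ℕ) (s : Fin n) (a : ℕ) : ww D (Pi.single s a) = a * D ^ (s : ℕ) := by
  unfold ww
  rw [Finset.sum_eq_single s]
  · rw [Pi.single_eq_same]
  · intro t _ hts
    rw [Pi.single_eq_of_ne hts, zero_mul]
  · intro h; exact absurd (Finset.mem_univ s) h

lemma ww_inj {D : ℕ} : ∀ {n : ℕ} {m m' : Fin n → ℕ}, (∀ s, m s < D) → (∀ s, m' s < D) →
    ww D m = ww D m' → m = m' := by
  intro n
  induction n with
  | zero => intro m m' _ _ _; exact Subsingleton.elim _ _
  | succ n ih =>
    intro m m' h1 h2 h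
    have key : ∀ m : Fin (n + 1) → ℕ, ww D m = m 0 + D * ww D (fun s => m s.succ) := by
      intro m
      unfold ww
      rw [Fin.sum_univ_succ, Finset.mul_sum]
      congr 1
      · simp
      · refine Finset.sum_congr rfl fun s _ => ?_
        rw [Fin.val_succ, pow_succ]
        ring
    rw [key, key] at h
    have h0 : m 0 = m' 0 := by
      have := congrArg (fun x => x % D) h
      simp only [Nat.add_mul_mod_self_left] at this
      rwa [Nat.mod_eq_of_lt (h1 0), Nat.mod_eq_of_lt (h2 0)] at this
    have hD : 0 < D := lt_of_le_of_lt (Nat.zero_le _) (h1 0)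
    have h3 : ww D (fun s => m s.succ) = ww D (fun s => m' s.succ) := by
      rw [h0] at h
      exact Nat.eq_of_mul_eq_mul_left hD (Nat.add_left_cancel h)
    have h4 := ih (fun s => h1 _) (fun s => h2 _) h3
    funext s
    refine Fin.cases h0 (fun s => ?_) s
    exact congrFun h4 s

lemma ww_le {D : ℕ} (hD : 1 ≤ D) (m : Fin n → ℕ) : ww D m ≤ (∑ s, m s) * D ^ n := by
  unfold ww
  rw [Finset.sum_mul]
  refine Finset.sum_le_sum fun s _ => Nat.mul_le_mul_left _ (Nat.pow_le_pow_right hD s.2.le)

/-- exponents of total degree `< D` -/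
def BD (n D : ℕ) : Finset (Fin n → ℕ) :=
  (Fintype.piFinset (fun _ => range D)).filter (fun m => ∑ s, m s < D)

lemma mem_BD {D : ℕ} {m : Fin n → ℕ} : m ∈ BD n D ↔ ∑ s, m s < D := by
  unfold BD
  rw [Finset.mem_filter, Fintype.mem_piFinset]
  refine ⟨fun h => h.2, fun h => ⟨fun i => ?_, h⟩⟩
  rw [Finset.mem_range]
  exact lt_of_le_of_lt (Finset.single_le_sum (fun _ _ => Nat.zero_le _) (Finset.mem_univ i)) h

lemma ww_inj_BD {D : ℕ} : ∀ a ∈ BD n D, ∀ b ∈ BD n D, ww D a = ww D b → a = b := by
  intro a ha b hb h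
  rw [mem_BD] at ha hb
  exact ww_inj (fun s => lt_of_le_of_lt (Finset.single_le_sum (fun _ _ => Nat.zero_le _)
    (Finset.mem_univ s)) ha) (fun s => lt_of_le_of_lt (Finset.single_le_sum
    (fun _ _ => Nat.zero_le _) (Finset.mem_univ s)) hb) h

/-- move `a` units from `p` to `i` -/
def mva (i p : Fin n) (a : ℕ) (m : Fin n → ℕ) : Fin n → ℕ := fun l =>
  if l = p then m p - a else if l = i then m i + a else m l

lemma mva_add {i p : Fin n} (hip : i ≠ p) {a : ℕ} {m : Fin n → ℕ} (ha : a ≤ m p) :
    mva i p a m + Pi.single p a = m + Pi.single i a := by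
  funext l
  simp only [Pi.add_apply, mva]
  by_cases hlp : l = p
  · subst hlp
    rw [if_pos rfl, Pi.single_eq_same, Pi.single_eq_of_ne (Ne.symm hip)]
    omega
  · rw [if_neg hlp, Pi.single_eq_of_ne hlp]
    by_cases hli : l = i
    · subst hli
      rw [if_pos rfl, Pi.single_eq_same, add_zero]
    · rw [if_neg hli, Pi.single_eq_of_ne hli]

lemma mva_self_eq_mv {i p : Fin n} (m : Fin n → ℕ) : mva i p (m p) m = mv i p m := by
  funext l
  rw [mv_apply, mva]
  split_ifs
  · simp
  · rfl
  · rfl

lemma sum_mva {i p : Fin n} (hip : i ≠ p) {a : ℕ} {m : Fin n → ℕ} (ha : a ≤ m p) :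
    ∑ s, mva i p a m s = ∑ s, m s := by
  have h := congrArg (fun f : Fin n → ℕ => ∑ s, f s) (mva_add hip ha)
  simp only [Pi.add_apply, Finset.sum_add_distrib, Finset.sum_pi_single', Finset.mem_univ,
    if_true] at h
  omega

lemma ww_mva {D : ℕ} {i p : Fin n} (hip : i ≠ p) {a : ℕ} {m : Fin n → ℕ} (ha : a ≤ m p) :
    ww D (mva i p a m) + a * D ^ (p : ℕ) = ww D m + a * D ^ (i : ℕ) := by
  rw [← ww_single, ← ww_single, ← ww_add, ← ww_add, mva_add hip ha]

end Weights

section Mon

variable {n : ℕ} {R : Type*} [CommRing R]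

/-- monomials -/
def Mon (y : Fin n → R) (m : Fin n → ℕ) : R := ∏ s, y s ^ m s

lemma Mon_add (y : Fin n → R) (m m' : Fin n → ℕ) : Mon y (m + m') = Mon y m * Mon y m' := by
  simp [Mon, pow_add, Finset.prod_mul_distrib]

lemma Mon_zero (y : Fin n → R) : Mon y 0 = 1 := by simp [Mon]

lemma Mon_single (y : Fin n → R) (s : Fin n) : Mon y (Pi.single s 1) = y s := by
  unfold Mon
  rw [Finset.prod_eq_single s]
  · rw [Pi.single_eq_same, pow_one]
  · intro t _ hts
    rw [Pi.single_eq_of_ne hts, pow_zero]
  · intro h; exact absurd (Finset.mem_univ s) h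

lemma Mon_map {R' : Type*} [CommRing R'] (f : R →+* R') (y : Fin n → R) (m : Fin n → ℕ) :
    f (Mon y m) = Mon (fun s => f (y s)) m := by
  simp [Mon, map_prod]

lemma Mon_smul {k : Type*} [Field k] [Algebra k R] (y : Fin n → R) (c : Fin n → k) (m : Fin n → ℕ) :
    Mon (fun s => c s • y s) m = (∏ s, c s ^ m s) • Mon y m := by
  simp only [Mon, smul_pow, Finset.prod_smul]

lemma Mon_update {i p : Fin n} (hip : i ≠ p) (z : Fin n → R) (m : Fin n → ℕ) :
    Mon (Function.update z p (z p + z i)) m =
      ∑ a ∈ range (m p + 1), ((m p).choose a : R) * Mon z (mva i p a m) := by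
  have hsplit : ∀ (y : Fin n → R) (m : Fin n → ℕ), Mon y m =
      y p ^ m p * (y i ^ m i * ∏ s ∈ (univ.erase p).erase i, y s ^ m s) := by
    intro y m
    unfold Mon
    rw [← Finset.mul_prod_erase _ _ (Finset.mem_univ p),
      ← Finset.mul_prod_erase _ _ (Finset.mem_erase.2 ⟨hip, Finset.mem_univ i⟩)]
  rw [hsplit, Function.update_self, Function.update_of_ne hip]
  have h1 : ∏ s ∈ (univ.erase p).erase i, Function.update z p (z p + z i) s ^ m s =
      ∏ s ∈ (univ.erase p).erase i, z s ^ m s := by
    refine Finset.prod_congr rfl fun s hs => ?_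
    rw [Function.update_of_ne (Finset.ne_of_mem_erase (Finset.mem_of_mem_erase hs))]
  rw [h1, add_comm (z p), add_pow, Finset.sum_mul]
  refine Finset.sum_congr rfl fun a _ => ?_
  rw [hsplit z (mva i p a m)]
  have h2 : ∏ s ∈ (univ.erase p).erase i, z s ^ mva i p a m s =
      ∏ s ∈ (univ.erase p).erase i, z s ^ m s := by
    refine Finset.prod_congr rfl fun s hs => ?_
    rw [mva, if_neg (Finset.ne_of_mem_erase (Finset.mem_of_mem_erase hs)),
      if_neg (Finset.ne_of_mem_erase hs)]
  have h3 : mva i p a m p = m p - a := by rw [mva, if_pos rfl]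
  have h4 : mva i p a m i = m i + a := by rw [mva, if_neg hip, if_pos rfl]
  rw [h2, h3, h4, pow_add]
  ring

end Mon

section Borel

variable {n : ℕ} {k : Type*} [Field k] {Q : Type*} [CommRing Q] [Algebra k Q]

/-- linear forms -/
def lf (x : Fin n → Q) (g : Matrix (Fin n) (Fin n) k) (s : Fin n) : Q := ∑ t, g s t • x t

/-- `S` is a basis of monomials in the coordinates `g` -/
def Good (x : Fin n → Q) (D : ℕ) (g : Matrix (Fin n) (Fin n) k) (S : Finset (Fin n → ℕ)) : Prop :=
  g.det ≠ 0 ∧ S ⊆ BD n D ∧ IsB k (Mon (lf x g)) S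

/-- coefficients of the binomial expansion -/
def bet (k : Type*) [Field k] (i p : Fin n) (m r : Fin n → ℕ) : k :=
  ∑ a ∈ range (m p + 1), if mva i p a m = r then ((m p).choose a : k) else 0

lemma bet_ne_zero {D : ℕ} (hD : 1 ≤ D) {i p : Fin n} (hip : i < p) {m r : Fin n → ℕ}
    (h : bet k i p m r ≠ 0) : ww D r ≤ ww D m := by
  obtain ⟨a, ha, h1⟩ := Finset.exists_ne_zero_of_sum_ne_zero h
  rw [Finset.mem_range] at ha
  have h2 : mva i p a m = r := by
    by_contra hcon
    exact h1 (if_neg hcon)
  rw [← h2]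
  have h3 := ww_mva (D := D) hip.ne (show a ≤ m p by omega)
  have h4 : a * D ^ (i : ℕ) ≤ a * D ^ (p : ℕ) := by
    rw [Fin.lt_def] at hip
    gcongr
  omega

lemma bet_self {i p : Fin n} (hip : i < p) (m : Fin n → ℕ) : bet k i p m m = 1 := by
  unfold bet
  rw [Finset.sum_eq_single 0]
  · rw [if_pos, Nat.choose_zero_right, Nat.cast_one]
    funext l
    unfold mva
    split_ifs with h1 h2
    · subst h1; rfl
    · subst h2; rfl
    · rfl
  · intro a ha ha0
    rw [Finset.mem_range] at ha
    rw [if_neg]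
    intro h
    have := congrFun h p
    rw [mva, if_pos rfl] at this
    omega
  · intro h
    exact absurd (Finset.mem_range.2 (Nat.succ_pos _)) h

lemma bet_mv {i p : Fin n} (_hip : i < p) (m : Fin n → ℕ) : bet k i p m (mv i p m) = 1 := by
  unfold bet
  rw [Finset.sum_eq_single (m p)]
  · rw [if_pos (mva_self_eq_mv m), Nat.choose_self, Nat.cast_one]
  · intro a ha ha0
    rw [Finset.mem_range] at ha
    rw [if_neg]
    intro h
    have := congrFun h p
    rw [mva, if_pos rfl, mv_apply, if_pos rfl] at this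
    omega
  · intro h
    exact absurd (Finset.mem_range.2 (Nat.lt_succ_self _)) h

variable [Infinite k] [FiniteDimensional k Q]

theorem borel {x : Fin n → Q} {D : ℕ} (hD : 2 ≤ D)
    {g : Matrix (Fin n) (Fin n) k} {S : Finset (Fin n → ℕ)} (hg : Good x D g S)
    (hmax : ∀ (g' : Matrix (Fin n) (Fin n) k) (S' : Finset (Fin n → ℕ)), Good x D g' S' →
      ∑ m ∈ S', ww D m ≤ ∑ m ∈ S, ww D m) : BT {m : Fin n → ℕ | m ∉ S} := by
  classical
  obtain ⟨hdet, hSB, hS⟩ := hg
  intro u huS i p hip'
  have hip : i < p := by rw [Fin.lt_def]; omega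
  have huS' : u ∉ S := huS
  show mv i p u ∉ S
  intro hmv
  have hu : u ∈ BD n D := by
    have h1 := hSB hmv
    rw [mem_BD] at h1 ⊢
    rwa [← mva_self_eq_mv, sum_mva hip.ne le_rfl] at h1
  -- coordinates with respect to the monomial basis
  let T : (Fin n → ℕ) → Q := Mon (lf x g)
  have hexch : ∀ m ∈ BD n D, ∀ r, hS.coord (T m) r ≠ 0 → ww D m ≤ ww D r := by
    intro m hm r hr
    by_cases hmS : m ∈ S
    · have h1 := hS.coord_self hmS r
      by_cases hmr : m = r
      · rw [hmr]
      · rw [if_neg hmr] at h1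
        exact absurd h1 hr
    · exact (exchange hS hSB (ww D) ww_inj_BD (fun S' hS' hB => hmax g S' ⟨hdet, hS', hB⟩) hm hmS
        hr).2.le
  have hexch' : ∀ m ∈ BD n D, m ∉ S → ∀ r, hS.coord (T m) r ≠ 0 → ww D m < ww D r := by
    intro m hm hmS r hr
    exact (exchange hS hSB (ww D) ww_inj_BD (fun S' hS' hB => hmax g S' ⟨hdet, hS', hB⟩) hm hmS
        hr).2
  have hmvaB : ∀ m ∈ BD n D, ∀ a ∈ range (m p + 1), mva i p a m ∈ BD n D := by
    intro m hm a ha
    rw [Finset.mem_range] at ha
    rw [mem_BD] at hm ⊢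
    rwa [sum_mva hip.ne (by omega)]
  -- the polynomial matrix
  let Mp : (Fin n → ℕ) → (Fin n → ℕ) → Polynomial k := fun m r =>
    ∑ a ∈ range (m p + 1), Polynomial.C (((m p).choose a : k) * hS.coord (T (mva i p a m)) r) *
      Polynomial.X ^ (ww D r - ww D (mva i p a m))
  have hMp0 : ∀ m ∈ BD n D, ∀ r ∈ S, (Mp m r).eval 0 = bet k i p m r := by
    intro m hm r hr
    simp only [Mp, Polynomial.eval_finsetSum, Polynomial.eval_mul, Polynomial.eval_C,
      Polynomial.eval_pow, Polynomial.eval_X, bet]
    refine Finset.sum_congr rfl fun a ha => ?_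
    have hB := hmvaB m hm a ha
    by_cases hmS : mva i p a m ∈ S
    · rw [hS.coord_self hmS]
      by_cases heq : mva i p a m = r
      · rw [if_pos heq, if_pos heq, heq, Nat.sub_self, pow_zero, mul_one, mul_one]
      · rw [if_neg heq, if_neg heq, mul_zero, zero_mul]
    · rw [if_neg (fun h : mva i p a m = r => hmS (by rw [h]; exact hr))]
      by_cases hc : hS.coord (T (mva i p a m)) r = 0
      · rw [hc, mul_zero, zero_mul]
      · have := hexch' _ hB hmS r hc
        rw [zero_pow (by omega), mul_zero]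
  -- the family `β`
  let β : (Fin n → ℕ) → (S → k) := fun m r => bet k i p m r
  have hwS : ∀ a ∈ S, ∀ b ∈ S, ww D a = ww D b → a = b := fun a ha b hb =>
    ww_inj_BD a (hSB ha) b (hSB hb)
  have htop := fun (c : (Fin n → ℕ) → k) => top_coord (k := k) (S := S) (ww D) hwS (bet k i p)
    (fun m _ => bet_self hip m) (fun m _ r _ h => bet_ne_zero (by omega) hip h) c
  have hβS : IsB k β S := by
    have hli : LinearIndependent k (fun m : S => β m) := by
      rw [Fintype.linearIndependent_iff]
      intro c hc m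
      by_contra hcon
      obtain ⟨m', hm', hcm', hsum⟩ := htop (fun r => if h : r ∈ S then c ⟨r, h⟩ else 0)
        ⟨m, m.2, by simpa using hcon⟩
      apply hcm'
      rw [← hsum]
      have h1 := congrFun hc ⟨m', hm'⟩
      rw [Finset.sum_apply] at h1
      simp only [Pi.smul_apply, smul_eq_mul, Pi.zero_apply, β] at h1
      rw [← Finset.sum_coe_sort, ← h1]
      refine Finset.sum_congr rfl fun s _ => ?_
      rw [dif_pos s.2]
    have hcard : S.card = Module.finrank k (S → k) := by
      rw [Module.finrank_fintype_fun_eq_card, Fintype.card_coe]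
    refine ⟨?_, hcard⟩
    rw [← range_coe]
    exact hli.span_eq_top_of_card_eq_finrank' (by rw [Fintype.card_coe]; exact hcard)
  have hβmax : ∀ S' : Finset (Fin n → ℕ), S' ⊆ BD n D → IsB k β S' →
      ∑ m ∈ S', ww D m ≤ ∑ m ∈ S, ww D m := by
    intro S' hS'B hS'
    have hcard : S.card = S'.card := by
      rw [hS'.2, Module.finrank_fintype_fun_eq_card, Fintype.card_coe]
    let ε : S ≃ S' := Finset.equivOfCardEq hcard
    let N : Matrix S S (Polynomial k) := Matrix.of fun s r => Mp (ε s) r
    have h0 : (N.det).eval 0 ≠ 0 := by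
      have h1 := (isB_iff_det (Pi.basisFun k S) β ε).1 hS'
      rw [Pi.basisFun_det_apply] at h1
      have h2 : (N.det).eval 0 = (Matrix.of fun s => β (ε s)).det := by
        rw [← Polynomial.coe_evalRingHom, RingHom.map_det]
        congr 1
        ext s r
        simp only [RingHom.mapMatrix_apply, Matrix.map_apply, N, Matrix.of_apply,
          Polynomial.coe_evalRingHom, β]
        exact hMp0 _ (hS'B (ε s).2) _ r.2
      rw [h2]; exact h1
    obtain ⟨σ, hσ0, hσ⟩ : ∃ σ : k, σ ≠ 0 ∧ (N.det).eval σ ≠ 0 := by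
      by_contra hcon
      push Not at hcon
      have h1 : Polynomial.X * N.det = 0 := by
        apply Polynomial.funext
        intro σ
        rw [Polynomial.eval_mul, Polynomial.eval_X, Polynomial.eval_zero]
        by_cases hσ : σ = 0
        · rw [hσ, zero_mul]
        · rw [hcon σ hσ, mul_zero]
      rcases mul_eq_zero.1 h1 with h2 | h2
      · exact Polynomial.X_ne_zero h2
      · rw [h2, Polynomial.eval_zero] at h0
        exact h0 rfl
    -- the new coordinates
    let cc : Fin n → k := fun s => (σ⁻¹) ^ (D ^ (s : ℕ))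
    have hcc : ∀ s, cc s ≠ 0 := fun s => pow_ne_zero _ (inv_ne_zero hσ0)
    let g1 : Matrix (Fin n) (Fin n) k := Matrix.diagonal cc * g
    let g' : Matrix (Fin n) (Fin n) k := g1.updateRow p (g1 p + g1 i)
    have hg1 : ∀ s, lf x g1 s = cc s • lf x g s := by
      intro s
      simp only [lf, g1, Matrix.diagonal_mul, Finset.smul_sum, smul_smul]
    have hg'det : g'.det ≠ 0 := by
      have : g'.det = g1.det := Matrix.det_updateRow_add_self g1 hip.ne'
      rw [this, Matrix.det_mul, Matrix.det_diagonal]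
      exact mul_ne_zero (Finset.prod_ne_zero_iff.2 fun s _ => hcc s) hdet
    have hg' : lf x g' = Function.update (fun s => cc s • lf x g s) p
        (cc p • lf x g p + cc i • lf x g i) := by
      funext s
      by_cases hs : s = p
      · subst hs
        rw [Function.update_self, ← hg1, ← hg1]
        simp only [lf, g', Matrix.updateRow_self, Pi.add_apply, add_smul, Finset.sum_add_distrib]
      · rw [Function.update_of_ne hs, ← hg1]
        simp only [lf, g', Matrix.updateRow_ne hs]
    have hprod : ∀ m : Fin n → ℕ, ∏ s, cc s ^ m s = (σ⁻¹) ^ (ww D m) := by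
      intro m
      simp only [cc, ← pow_mul]
      rw [Finset.prod_pow_eq_pow_sum]
      congr 1
      unfold ww
      exact Finset.sum_congr rfl fun s _ => mul_comm _ _
    have hT' : ∀ m : Fin n → ℕ, Mon (lf x g') m = ∑ a ∈ range (m p + 1),
        (((m p).choose a : k) * (σ⁻¹) ^ (ww D (mva i p a m))) • T (mva i p a m) := by
      intro m
      rw [hg', Mon_update hip.ne]
      refine Finset.sum_congr rfl fun a _ => ?_
      rw [Mon_smul, hprod, mul_smul, ← nsmul_eq_mul, Nat.cast_smul_eq_nsmul]
    have hcoord : ∀ m ∈ BD n D, Mon (lf x g') m =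
        ∑ r ∈ S, ((σ⁻¹) ^ (ww D r) * (Mp m r).eval σ) • T r := by
      intro m hm
      rw [hT']
      have h1 : ∀ a ∈ range (m p + 1), (((m p).choose a : k) * (σ⁻¹) ^ (ww D (mva i p a m))) •
          T (mva i p a m) = ∑ r ∈ S, (((σ⁻¹) ^ (ww D r) * (((m p).choose a : k) *
            hS.coord (T (mva i p a m)) r * σ ^ (ww D r - ww D (mva i p a m)))) • T r) := by
        intro a ha
        conv_lhs => rw [← hS.sum_coord (T (mva i p a m))]
        rw [Finset.smul_sum]
        refine Finset.sum_congr rfl fun r _ => ?_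
        rw [smul_smul]
        congr 1
        by_cases hc : hS.coord (T (mva i p a m)) r = 0
        · rw [hc]; ring
        · have hle := hexch _ (hmvaB m hm a ha) r hc
          have h2 : (σ⁻¹) ^ (ww D r) * σ ^ (ww D r - ww D (mva i p a m)) =
              (σ⁻¹) ^ (ww D (mva i p a m)) := by
            obtain ⟨d, hd⟩ := Nat.exists_eq_add_of_le hle
            rw [hd, Nat.add_sub_cancel_left, pow_add, mul_assoc, ← mul_pow, inv_mul_cancel₀ hσ0,
              one_pow, mul_one]
          rw [← h2]
          ring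
      rw [Finset.sum_congr rfl h1, Finset.sum_comm]
      refine Finset.sum_congr rfl fun r _ => ?_
      rw [← Finset.sum_smul]
      congr 1
      simp only [Mp, Polynomial.eval_finsetSum, Polynomial.eval_mul, Polynomial.eval_C,
        Polynomial.eval_pow, Polynomial.eval_X]
      rw [← Finset.mul_sum]
    have hB' : IsB k (Mon (lf x g')) S' := by
      rw [isB_iff_det hS.basis (Mon (lf x g')) ε, Module.Basis.det_apply]
      have h1 : hS.basis.toMatrix (fun s => Mon (lf x g') (ε s)) =
          Matrix.diagonal (fun r : S => (σ⁻¹) ^ (ww D (r : Fin n → ℕ))) *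
            (N.map (Polynomial.eval σ)).transpose := by
        ext r s
        rw [Module.Basis.toMatrix_apply, hcoord _ (hS'B (ε s).2), Matrix.diagonal_mul,
          Matrix.transpose_apply, Matrix.map_apply]
        rw [← Finset.sum_coe_sort S (fun r => ((σ⁻¹) ^ (ww D r) * (Mp (ε s) r).eval σ) • T r)]
        have h2 : ∀ r : S, T r = hS.basis r := fun r => (hS.basis_apply r).symm
        simp only [h2]
        rw [map_sum, Finset.sum_apply']
        simp only [map_smul, Module.Basis.repr_self, Finsupp.smul_single, smul_eq_mul, mul_one,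
          Finsupp.single_apply]
        rw [Finset.sum_ite_eq' Finset.univ r]
        simp [N]
      rw [h1, Matrix.det_mul, Matrix.det_diagonal, Matrix.det_transpose]
      refine mul_ne_zero (Finset.prod_ne_zero_iff.2 fun s _ => pow_ne_zero _ (inv_ne_zero hσ0)) ?_
      have h2 : (N.map (Polynomial.eval σ)).det = (N.det).eval σ := by
        rw [← Polynomial.coe_evalRingHom, RingHom.map_det]
        rfl
      rw [h2]; exact hσ
    exact hmax g' S' ⟨hg'det, hS'B, hB'⟩
  -- conclusion
  have hE := fun (m : Fin n → ℕ) (hm : hβS.coord (β u) m ≠ 0) =>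
    exchange hβS hSB (ww D) ww_inj_BD hβmax hu huS' hm
  have hzero : ∀ m ∈ S, hβS.coord (β u) m = 0 := by
    by_contra hcon
    push Not at hcon
    obtain ⟨m, hm, hcm, hsum⟩ := htop (hβS.coord (β u)) hcon
    have h1 := hβS.sum_coord (β u)
    have h2 : bet k i p u m = hβS.coord (β u) m := by
      rw [← hsum]
      have h3 := congrFun h1 ⟨m, hm⟩
      rw [Finset.sum_apply] at h3
      simp only [Pi.smul_apply, smul_eq_mul, β] at h3
      exact h3.symm
    rw [← h2] at hcm
    have h4 := bet_ne_zero (D := D) (by omega) hip hcm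
    have h5 := (hE m (by rw [← h2]; exact hcm)).2
    omega
  have h1 : β u = 0 := by
    rw [← hβS.sum_coord (β u)]
    refine Finset.sum_eq_zero fun m hm => ?_
    rw [hzero m hm, zero_smul]
  have h2 := congrFun h1 ⟨mv i p u, hmv⟩
  simp only [β, Pi.zero_apply, bet_mv hip] at h2
  exact one_ne_zero h2

end Borel

end Pool.Agent.N91.SL
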