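import Pool.Agent.N91.SL.Comb2

/-!
# The combinatorial inequality
-/

set_option autoImplicit false

namespace Pool.Agent.N91.SL

open Finset

variable {n : ℕ}

lemma iter_fix {c : Fin n → Fin n} (hc : ∀ t, c t ≤ t) (t : Fin n) : c (c^[n] t) = c^[n] t := by
  have key : ∀ k, c (c^[k] t) = c^[k] t ∨ ((c^[k] t : Fin n) : ℕ) + k ≤ t := by
    intro k
    induction k with
    | zero => right; simp
    | succ k ih =>
      rw [Function.iterate_succ_apply']
      rcases ih with h | h
      · left; rw [h, h]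
      · by_cases h' : c (c^[k] t) = c^[k] t
        · left; rw [h', h']
        · right
          have := lt_of_le_of_ne (hc (c^[k] t)) h'
          rw [Fin.lt_def] at this
          omega
  rcases key n with h | h
  · exact h
  · have := t.2; omega

/-- the first `j` indices -/
def firstEquiv {j : ℕ} (hj : j ≤ n) : Fin j ≃ {i : Fin n // (i : ℕ) < j} where
  toFun k := ⟨⟨k, lt_of_lt_of_le k.2 hj⟩, k.2⟩
  invFun i := ⟨i.1, i.2⟩
  left_inv _ := rfl
  right_inv _ := rfl

lemma low {J : Set (Fin n → ℕ)} {D : ℕ} (hD : ∀ m : Fin n → ℕ, D ≤ ∑ i, m i → m ∈ J)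
    {c : Fin n → Fin n} (hc : c ∈ Sub n) :
    (XX J (nfix c)).ncard ≤ ((X J D).filter (fun w => ∀ t, w (c t) = w t)).card := by
  classical
  have hc' := mem_Sub.1 hc
  have hjn : nfix c ≤ n := nfix_le c
  have hcard : Fintype.card {i : Fin n // (i : ℕ) < nfix c} = Fintype.card {t : Fin n // c t = t} := by
    rw [← Fintype.card_congr (firstEquiv hjn), Fintype.card_fin, Fintype.card_subtype]
    rfl
  let e : {i : Fin n // (i : ℕ) < nfix c} ≃ {t : Fin n // c t = t} := Fintype.equivOfCardEq hcard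
  let r : Fin n → {t : Fin n // c t = t} := fun t => ⟨c^[n] t, iter_fix hc' t⟩
  let f : (Fin (nfix c) → ℕ) → (Fin n → ℕ) := fun v t => v ⟨(e.symm (r t)).1, (e.symm (r t)).2⟩
  have hr : ∀ t : {t : Fin n // c t = t}, r t.1 = t := by
    intro t
    exact Subtype.ext (Function.iterate_fixed t.2 n)
  rw [← Set.ncard_coe_finset]
  refine Set.ncard_le_ncard_of_injOn f ?_ ?_ (Finset.finite_toSet _)
  · intro v hv
    rw [Finset.mem_coe, Finset.mem_filter, mem_X hD]
    refine ⟨fun hU => hv ?_, fun t => ?_⟩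
    · refine U_up (U_symm hU e.extendSubtype) (fun l => ?_)
      by_cases hl : (l : ℕ) < nfix c
      · have h1 : e.extendSubtype l = (e ⟨l, hl⟩ : Fin n) := Equiv.extendSubtype_apply_of_mem e l hl
        simp only [Function.comp_apply, f, ext, hl, dite_true]
        have h2 : e.symm (r (e.extendSubtype l)) = ⟨l, hl⟩ := by
          rw [h1, hr, Equiv.symm_apply_apply]
        rw [h2]
      · simp only [Function.comp_apply, f, ext, hl, dite_false]
        exact Finset.le_sup (f := v) (Finset.mem_univ _)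
    · have : r (c t) = r t := by
        apply Subtype.ext
        show c^[n] (c t) = c^[n] t
        rw [← Function.iterate_succ_apply, Function.iterate_succ_apply', iter_fix hc']
      simp only [f, this]
  · intro v _ v' _ h
    funext k
    have h1 := congrFun h (e ⟨⟨k, lt_of_lt_of_le k.2 hjn⟩, k.2⟩ : Fin n)
    simp only [f, hr, Equiv.symm_apply_apply] at h1
    exact h1

theorem count_J {J : Set (Fin n → ℕ)} {D : ℕ} (hD : ∀ m : Fin n → ℕ, D ≤ ∑ i, m i → m ∈ J)
    (S : Finset (Fin n → ℕ)) (hS : ∀ m, m ∉ J → m ∈ S) :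
    ∑ j ∈ range (n + 1), (ascPochhammer ℕ n).coeff j * (XX (n := n) J j).ncard ≤ n.factorial * S.card := by
  classical
  refine le_trans (count_main (X J D) ?_ (fun j => (XX (n := n) J j).ncard) (fun c hc => low hD hc)) ?_
  · intro v hv σ
    rw [mem_X hD] at hv ⊢
    intro h
    apply hv
    have := U_symm h σ.symm
    have h2 : (v ∘ σ) ∘ σ.symm = v := by funext x; simp
    rwa [h2] at this
  · refine Nat.mul_le_mul_left _ (Finset.card_le_card_of_injOn Dl ?_ ?_)
    · intro w hw
      rw [Finset.mem_coe, Finset.mem_filter, mem_X hD] at hw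
      refine hS _ (fun hJ => hw.1 ?_)
      have := P_mem_U (subset_Jb hJ)
      rwa [P_Dl hw.2] at this
    · intro w hw w' hw' h
      rw [Finset.mem_coe, Finset.mem_filter] at hw hw'
      rw [← P_Dl hw.2, ← P_Dl hw'.2, h]

lemma exists_r0 {J : Set (Fin n → ℕ)} {D : ℕ} (hD : ∀ m : Fin n → ℕ, D ≤ ∑ i, m i → m ∈ J) :
    ∃ r0 : ℕ, 1 ≤ r0 ∧ ∀ m ∈ Jb J, SS J r0 (r0 • m) := by
  classical
  have hfin : {m : Fin n → ℕ | m ∉ J}.Finite := by
    refine Set.Finite.subset (Set.Finite.pi' (fun _ : Fin n => Set.finite_Iio D)) ?_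
    intro m hm i
    rw [Set.mem_Iio]
    by_contra hcon
    push Not at hcon
    exact hm (hD m (hcon.trans (Finset.single_le_sum (fun _ _ => Nat.zero_le _) (Finset.mem_univ i))))
  have key : ∀ F : Set (Fin n → ℕ), F.Finite →
      ∃ r0 : ℕ, 1 ≤ r0 ∧ ∀ m ∈ F, m ∈ Jb J → SS J r0 (r0 • m) := by
    intro F hF
    induction F, hF using Set.Finite.induction_on with
    | empty => exact ⟨1, le_rfl, by simp⟩
    | @insert a s _ _ ih =>
      obtain ⟨r0, h0, h1⟩ := ih
      by_cases ha : a ∈ Jb J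
      · obtain ⟨r1, h2, h3⟩ := ha
        refine ⟨r1 * r0, Nat.mul_pos h2 h0, ?_⟩
        intro m hm hmJ
        rcases hm with rfl | hm
        · have := h3.nsmul r0
          rw [mul_comm r1 r0, mul_nsmul']
          exact this
        · have := (h1 m hm hmJ).nsmul r1
          rw [mul_nsmul']
          exact this
      · refine ⟨r0, h0, ?_⟩
        intro m hm hmJ
        rcases hm with rfl | hm
        · exact absurd hmJ ha
        · exact h1 m hm hmJ
  obtain ⟨r0, h0, h1⟩ := key _ hfin
  refine ⟨r0, h0, fun m hm => ?_⟩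
  by_cases hmJ : m ∈ J
  · have := (SS.one hmJ).nsmul r0
    rwa [mul_one] at this
  · exact h1 m hmJ hm

lemma hermite {N : ℕ} (hN : 1 ≤ N) (x : ℕ) : ∑ q ∈ range N, (x + q) / N = x := by
  induction x with
  | zero =>
    refine Finset.sum_eq_zero fun q hq => ?_
    rw [zero_add]
    exact Nat.div_eq_of_lt (Finset.mem_range.1 hq)
  | succ x ih =>
    have h1 : ∑ q ∈ range (N + 1), (x + q) / N = x + (x + N) / N := by
      rw [Finset.sum_range_succ, ih]
    rw [Finset.sum_range_succ'] at h1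
    have h2 : (x + N) / N = x / N + 1 := Nat.add_div_right x hN
    have h3 : ∑ q ∈ range N, (x + 1 + q) / N = ∑ q ∈ range N, (x + (q + 1)) / N :=
      Finset.sum_congr rfl fun q _ => by rw [add_assoc, add_comm 1 q]
    rw [h3]
    rw [add_zero, h2] at h1
    omega

lemma floor_mem {J : Set (Fin n → ℕ)} (hJ : BT J) {r0 : ℕ} (hr0 : ∀ m ∈ Jb J, SS J r0 (r0 • m))
    {N : ℕ} (hN : 1 ≤ N) {m : Fin n → ℕ} (h : (fun i => P m i / N) ∈ U J) :
    SS J (r0 * N) (r0 • m) := by
  have h1 : ∀ q, P (Dl (fun i => (P m i + q) / N)) = fun i => (P m i + q) / N := by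
    intro q
    apply P_Dl
    intro i j hij
    exact Nat.div_le_div_right (Nat.add_le_add_right (P_mono m hij) q)
  have h2 : ∀ q, Dl (fun i => (P m i + q) / N) ∈ Jb J := by
    intro q
    apply mem_of_P_mem_U hJ
    rw [h1]
    exact U_up h (fun l => Nat.div_le_div_right (Nat.le_add_right _ _))
  have h3 := SS.sum N (fun q => r0 • Dl (fun i => (P m i + q) / N)) (fun q _ => hr0 _ (h2 q))
  have h4 : ∑ q ∈ range N, r0 • Dl (fun i => (P m i + q) / N) = r0 • m := by
    rw [← Finset.smul_sum]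
    congr 1
    apply P_inj
    have h5 : P (∑ q ∈ range N, Dl (fun i => (P m i + q) / N)) =
        ∑ q ∈ range N, P (Dl (fun i => (P m i + q) / N)) := map_sum Phom _ _
    rw [h5, Finset.sum_congr rfl (fun q _ => h1 q)]
    funext i
    rw [Finset.sum_apply]
    exact hermite hN _
  rwa [h4] at h3

lemma P_inj' {m m' : Fin n → ℕ} {j : ℕ} (h : ∀ i : Fin n, (i : ℕ) < j → P m i = P m' i) :
    ∀ i : Fin n, (i : ℕ) < j → m i = m' i := by
  have key : ∀ k : ℕ, ∀ i : Fin n, (i : ℕ) = k → (i : ℕ) < j → m i = m' i := by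
    intro k
    induction k using Nat.strong_induction_on with
    | _ k ih =>
      intro i hi hij
      have h1 : P m i = P m' i := h i hij
      unfold P at h1
      rw [← Finset.Iio_insert, Finset.sum_insert (by simp), Finset.sum_insert (by simp)] at h1
      have h2 : ∑ l ∈ Finset.Iio i, m l = ∑ l ∈ Finset.Iio i, m' l := by
        refine Finset.sum_congr rfl fun l hl => ?_
        have := Finset.mem_Iio.1 hl
        rw [Fin.lt_def] at this
        exact ih l (by omega) l rfl (by omega)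
      omega
  intro i hi
  exact key i i rfl hi

/-- exponents supported on the first `j` variables outside the `r`-th power -/
def Bad (J : Set (Fin n → ℕ)) (j r : ℕ) : Set (Fin n → ℕ) :=
  {m | (∀ l : Fin n, j ≤ (l : ℕ) → m l = 0) ∧ ¬ SS J r m}

lemma bad_aux {J : Set (Fin n → ℕ)} {D : ℕ} (hD : ∀ m : Fin n → ℕ, D ≤ ∑ i, m i → m ∈ J) (hJ : BT J)
    {r0 : ℕ} (hr0' : 1 ≤ r0) (hr0 : ∀ m ∈ Jb J, SS J r0 (r0 • m)) {j : ℕ} (hj : j ≤ n) {N : ℕ}
    (hN : 1 ≤ N) :
    (Bad J j (r0 * N)).Finite ∧
    (Bad J j (r0 * N)).ncard * j.factorial ≤ (XX (n := n) J j).ncard * ((N + j) ^ j * r0 ^ j) := by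
  classical
  let ι : Fin j → Fin n := fun k => ⟨k, lt_of_lt_of_le k.2 hj⟩
  let v : (Fin n → ℕ) → Equiv.Perm (Fin j) → Fin j → ℕ := fun m τ k =>
    P (fun l => m l / r0) (ι (τ k)) + (τ k : ℕ)
  let x : (Fin n → ℕ) → Equiv.Perm (Fin j) → Fin j → ℕ := fun m τ k => (v m τ k - j) / N
  have hρ : ∀ m τ k, v m τ k - N * x m τ k < N + j := by
    intro m τ k
    have h1 : v m τ k - j < N * ((v m τ k - j) / N) + N := by
      have := Nat.lt_mul_div_succ (v m τ k - j) hN
      rw [mul_add, mul_one] at this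
      exact this
    simp only [x]
    omega
  have hθ : ∀ (m : Fin n → ℕ) (k : Fin j), m (ι k) % r0 < r0 := fun m k => Nat.mod_lt _ hr0'
  let F : (Fin n → ℕ) × Equiv.Perm (Fin j) → (Fin j → ℕ) × ((Fin j → Fin (N + j)) × (Fin j → Fin r0)) :=
    fun p => (x p.1 p.2, (fun k => ⟨v p.1 p.2 k - N * x p.1 p.2 k, hρ p.1 p.2 k⟩),
      (fun k => ⟨p.1 (ι k) % r0, hθ p.1 k⟩))
  have hmaps : Set.MapsTo F (Bad J j (r0 * N) ×ˢ (Set.univ : Set (Equiv.Perm (Fin j))))
      (XX (n := n) J j ×ˢ (Set.univ : Set ((Fin j → Fin (N + j)) × (Fin j → Fin r0)))) := by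
    rintro ⟨m, τ⟩ ⟨hm, -⟩
    refine ⟨?_, Set.mem_univ _⟩
    intro hU
    apply hm.2
    have h1 : (fun i => P (fun l => m l / r0) i / N) ∈ U J := by
      let ρ : Equiv.Perm (Fin n) := τ.extendDomain (firstEquiv hj)
      have hρ1 : ∀ k : Fin j, ρ (ι k) = ι (τ k) := by
        intro k
        exact Equiv.Perm.extendDomain_apply_image τ (firstEquiv hj) k
      have hρ2 : ∀ i : Fin n, ¬ (i : ℕ) < j → ρ i = i := by
        intro i hi
        exact Equiv.Perm.extendDomain_apply_not_subtype τ (firstEquiv hj) hi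
      have h2 : ((fun i => P (fun l => m l / r0) i / N) ∘ ρ) ∈ U J := by
        refine U_up hU (fun l => ?_)
        have hle : ∀ k : Fin j, x m τ k ≤ P (fun l => m l / r0) (ι (τ k)) / N := by
          intro k
          refine Nat.div_le_div_right ?_
          have := (τ k).2
          simp only [v]
          omega
        by_cases hl : (l : ℕ) < j
        · have h3 := hρ1 ⟨l, hl⟩
          have h4 : ι ⟨l, hl⟩ = l := rfl
          rw [h4] at h3
          simp only [F, Function.comp_apply, ext, hl, dite_true, h3]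
          exact hle ⟨l, hl⟩
        · simp only [F, Function.comp_apply, ext, hl, dite_false, hρ2 l hl]
          refine Finset.sup_le fun k _ => (hle k).trans (Nat.div_le_div_right (P_mono _ ?_))
          rw [Fin.le_def]
          have := (τ k).2
          simp only [ι]
          omega
      have h5 := U_symm h2 ρ.symm
      have h6 : ((fun i => P (fun l => m l / r0) i / N) ∘ ρ) ∘ ρ.symm =
          (fun i => P (fun l => m l / r0) i / N) := by
        funext y; simp
      rwa [h6] at h5
    refine (floor_mem hJ hr0 hN h1).mono ?_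
    intro l
    simp only [Pi.smul_apply, smul_eq_mul]
    exact Nat.mul_div_le _ _
  have hinj : Set.InjOn F (Bad J j (r0 * N) ×ˢ (Set.univ : Set (Equiv.Perm (Fin j)))) := by
    rintro ⟨m, τ⟩ ⟨hm, -⟩ ⟨m', τ'⟩ ⟨hm', -⟩ h
    simp only [F, Prod.mk.injEq] at h
    obtain ⟨hx, hv, ht⟩ := h
    have hxle : ∀ m τ k, N * x m τ k ≤ v m τ k := by
      intro m τ k
      exact (Nat.mul_div_le _ _).trans (Nat.sub_le _ _)
    have hvv : v m τ = v m' τ' := by
      funext k
      have h1 := congrFun hv k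
      simp only [Fin.mk.injEq] at h1
      have h2 := congrFun hx k
      have h3 := hxle m τ k
      have h4 := hxle m' τ' k
      rw [h2] at h1 h3
      omega
    let wp : (Fin n → ℕ) → Fin j → ℕ := fun m k => P (fun l => m l / r0) (ι k) + (k : ℕ)
    have hwp : ∀ m, StrictMono (wp m) := by
      intro m k k' hk
      have h1 : P (fun l => m l / r0) (ι k) ≤ P (fun l => m l / r0) (ι k') := by
        apply P_mono
        rw [Fin.le_def]
        rw [Fin.lt_def] at hk
        exact hk.le
      rw [Fin.lt_def] at hk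
      simp only [wp]
      omega
    have h1 : ∀ m τ, v m τ = wp m ∘ τ := fun m τ => rfl
    have h2 : ∀ m τ, v m τ ∘ (τ.symm) = wp m := by
      intro m τ
      rw [h1]
      funext k
      simp
    have h3 : wp m = wp m' := by
      have h4 : Monotone (v m τ ∘ τ.symm) := by rw [h2]; exact (hwp m).monotone
      have h5 : Monotone (v m τ ∘ τ'.symm) := by rw [hvv, h2]; exact (hwp m').monotone
      have h6 := Tuple.unique_monotone h4 h5
      rw [h2] at h6
      rw [h6, hvv, h2]
    have h4 : τ = τ' := by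
      ext k
      have h5 := congrFun hvv k
      rw [h1, h1, ← h3] at h5
      simp only [Function.comp_apply] at h5
      rw [(hwp m).injective h5]
    have h5 : ∀ i : Fin n, (i : ℕ) < j → m i / r0 = m' i / r0 := by
      refine P_inj' (m := fun l => m l / r0) (m' := fun l => m' l / r0) (fun i hi => ?_)
      have h6 := congrFun h3 ⟨i, hi⟩
      simp only [wp] at h6
      have h7 : ι ⟨i, hi⟩ = i := rfl
      rw [h7] at h6
      omega
    have h6 : m = m' := by
      funext i
      by_cases hi : (i : ℕ) < j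
      · have h7 := h5 i hi
        have h8 := congrFun ht ⟨i, hi⟩
        simp only [Fin.mk.injEq] at h8
        have h9 : ι ⟨i, hi⟩ = i := rfl
        rw [h9] at h8
        rw [← Nat.div_add_mod (m i) r0, ← Nat.div_add_mod (m' i) r0, h7, h8]
      · exact (hm.1 i (by omega)).trans (hm'.1 i (by omega)).symm
    rw [h4, h6]
  have hfinT : (XX (n := n) J j ×ˢ (Set.univ : Set ((Fin j → Fin (N + j)) × (Fin j → Fin r0)))).Finite :=
    (XX_finite hD hj).prod Set.finite_univ
  have hfinS := Set.Finite.of_injOn hmaps hinj hfinT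
  constructor
  · refine Set.Finite.subset (hfinS.image Prod.fst) ?_
    intro m hm
    exact ⟨(m, 1), ⟨hm, Set.mem_univ _⟩, rfl⟩
  · have h1 := Set.ncard_le_ncard_of_injOn F hmaps hinj hfinT
    rw [Set.ncard_prod, Set.ncard_prod, Set.ncard_univ, Set.ncard_univ, Nat.card_prod,
      Nat.card_eq_fintype_card, Nat.card_eq_fintype_card, Nat.card_eq_fintype_card, Fintype.card_perm,
      Fintype.card_fin, Fintype.card_fun, Fintype.card_fun, Fintype.card_fin, Fintype.card_fin,
      Fintype.card_fin] at h1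
    exact h1

/-- The combinatorial theorem. -/
theorem comb {J : Set (Fin n → ℕ)} {D : ℕ} (hD : ∀ m : Fin n → ℕ, D ≤ ∑ i, m i → m ∈ J) (hJ : BT J)
    (S : Finset (Fin n → ℕ)) (hS : ∀ m, m ∉ J → m ∈ S) :
    ∃ (G : ℕ → ℕ) (r0 : ℕ), 1 ≤ r0 ∧
      ∑ j ∈ range (n + 1), (ascPochhammer ℕ n).coeff j * G j ≤ n.factorial * S.card ∧
      ∀ j, j ≤ n → ∀ N, 1 ≤ N → (Bad J j (r0 * N)).Finite ∧
        (Bad J j (r0 * N)).ncard * j.factorial ≤ G j * ((N + j) ^ j * r0 ^ j) := by
  obtain ⟨r0, h0, h1⟩ := exists_r0 hD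
  exact ⟨fun j => (XX (n := n) J j).ncard, r0, h0, count_J hD S hS,
    fun j hj N hN => bad_aux hD hJ h0 h1 hj hN⟩

end Pool.Agent.N91.SL
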