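import Pool.Agent.N91.SL.Alg2
import Pool.Agent.N91.SL.Comb3

/-!
# Standard monomials and dimension bounds
-/

set_option autoImplicit false
set_option linter.unusedSectionVars false

namespace Pool.Agent.N91.SL

open Finset

section

variable {n : ℕ} {k : Type*} [Field k] {R : Type*} [CommRing R] [Algebra k R] (x : Fin n → R)

/-- the ideal generated by the coordinates -/
def mm : Ideal R := Ideal.span (Set.range x)

variable {x}

lemma lf_mem (g : Matrix (Fin n) (Fin n) k) (s : Fin n) : lf x g s ∈ mm x := by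
  refine Ideal.sum_mem _ fun t _ => ?_
  rw [Algebra.smul_def]
  exact Ideal.mul_mem_left _ _ (Ideal.subset_span ⟨t, rfl⟩)

lemma Mon_mem (g : Matrix (Fin n) (Fin n) k) (m : Fin n → ℕ) : Mon (lf x g) m ∈ mm x ^ (∑ s, m s) := by
  unfold Mon
  rw [← Finset.prod_pow_eq_pow_sum]
  exact Ideal.prod_mem_prod fun s _ => Ideal.pow_mem_pow (lf_mem g s) _

lemma adjoin_le_span (y : Fin n → R) :
    Subalgebra.toSubmodule (Algebra.adjoin k (Set.range y)) ≤ Submodule.span k (Set.range (Mon y)) := by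
  have hone : (1 : R) ∈ Submodule.span k (Set.range (Mon y)) :=
    Submodule.subset_span ⟨0, Mon_zero y⟩
  have hmul : ∀ a b : R, a ∈ Submodule.span k (Set.range (Mon y)) →
      b ∈ Submodule.span k (Set.range (Mon y)) → a * b ∈ Submodule.span k (Set.range (Mon y)) := by
    intro a b ha hb
    have h1 := Submodule.mul_mem_mul ha hb
    rw [Submodule.span_mul_span] at h1
    refine Submodule.span_mono ?_ h1
    rintro _ ⟨_, ⟨m, rfl⟩, _, ⟨m', rfl⟩, rfl⟩
    exact ⟨m + m', Mon_add y m m'⟩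
  have h1 : Algebra.adjoin k (Set.range y) ≤
      Submodule.toSubalgebra (Submodule.span k (Set.range (Mon y))) hone hmul := by
    refine Algebra.adjoin_le ?_
    rintro _ ⟨s, rfl⟩
    exact Submodule.subset_span ⟨Pi.single s 1, Mon_single y s⟩
  exact h1

lemma x_mem_adjoin {g : Matrix (Fin n) (Fin n) k} (hg : g.det ≠ 0) (t : Fin n) :
    x t ∈ Algebra.adjoin k (Set.range (lf x g)) := by
  have h1 : x t = ∑ s, g⁻¹ t s • lf x g s := by
    simp only [lf, Finset.smul_sum, smul_smul]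
    rw [Finset.sum_comm]
    have h2 : ∀ u, ∑ s, (g⁻¹ t s * g s u) • x u = (1 : Matrix (Fin n) (Fin n) k) t u • x u := by
      intro u
      rw [← Finset.sum_smul, ← Matrix.nonsing_inv_mul g (isUnit_iff_ne_zero.2 hg), Matrix.mul_apply]
    rw [Finset.sum_congr rfl (fun u _ => h2 u)]
    simp [Matrix.one_apply]
  rw [h1]
  exact Subalgebra.sum_mem _ fun s _ => Subalgebra.smul_mem _ (Algebra.subset_adjoin (Set.mem_range_self s)) _

lemma adjoin_le_adjoin {g : Matrix (Fin n) (Fin n) k} (hg : g.det ≠ 0) :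
    Algebra.adjoin k (Set.range x) ≤ Algebra.adjoin k (Set.range (lf x g)) := by
  refine Algebra.adjoin_le ?_
  rintro _ ⟨t, rfl⟩
  exact x_mem_adjoin hg t

/-- `R` is approximated by polynomials -/
def Appr (k : Type*) [Field k] [Algebra k R] (x : Fin n → R) : Prop :=
  ∀ (D : ℕ) (f : R), ∃ p ∈ Algebra.adjoin k (Set.range x), f - p ∈ mm x ^ D

lemma mem_of_Mon (hR : Appr k x) {g : Matrix (Fin n) (Fin n) k} (hg : g.det ≠ 0) {D' : ℕ}
    {V : Submodule k R} (h1 : ∀ f ∈ mm x ^ D', f ∈ V) (h2 : ∀ m, Mon (lf x g) m ∈ V) (f : R) : f ∈ V := by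
  obtain ⟨p, hp, hfp⟩ := hR D' f
  have h3 : p ∈ V := by
    have h4 := adjoin_le_span (k := k) (lf x g) (adjoin_le_adjoin hg hp)
    refine (Submodule.span_le.2 ?_ : Submodule.span k (Set.range (Mon (lf x g))) ≤ V) h4
    rintro _ ⟨m, rfl⟩
    exact h2 m
  have h4 := V.add_mem (h1 _ hfp) h3
  rwa [sub_add_cancel] at h4

lemma span_quot (hR : Appr k x) {g : Matrix (Fin n) (Fin n) k} (hg : g.det ≠ 0) {D : ℕ} (hD : 1 ≤ D)
    {𝔟 : Ideal R} {D' : ℕ} (h𝔟 : mm x ^ D' ≤ 𝔟) (G : Set (Fin n → ℕ))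
    (hG : ∀ m, m ∉ G → Mon (lf x g) m ∈ (𝔟.restrictScalars k) ⊔
      Submodule.span k (Mon (lf x g) '' {m' | ww D m < ww D m'})) (f : R) :
    f ∈ (𝔟.restrictScalars k) ⊔ Submodule.span k (Mon (lf x g) '' G) := by
  set V := (𝔟.restrictScalars k) ⊔ Submodule.span k (Mon (lf x g) '' G) with hV
  have hbV : ∀ f ∈ 𝔟, f ∈ V := fun f hf => Submodule.mem_sup_left hf
  have key : ∀ t : ℕ, ∀ m : Fin n → ℕ, D' * D ^ n - ww D m ≤ t → Mon (lf x g) m ∈ V := by
    intro t
    induction t with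
    | zero =>
      intro m hm
      have h1 : D' ≤ ∑ s, m s := by
        by_contra hcon
        push Not at hcon
        have h2 := ww_le hD m
        have h3 : (∑ s, m s) * D ^ n < D' * D ^ n := by
          have : 0 < D ^ n := Nat.pow_pos (by omega)
          exact Nat.mul_lt_mul_of_pos_right hcon this
        omega
      exact hbV _ (h𝔟 (Ideal.pow_le_pow_right h1 (Mon_mem g m)))
    | succ t ih =>
      intro m hm
      by_cases hmG : m ∈ G
      · exact Submodule.mem_sup_right (Submodule.subset_span ⟨m, hmG, rfl⟩)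
      · refine (sup_le (fun f hf => hbV f hf) (Submodule.span_le.2 ?_) :
          (𝔟.restrictScalars k) ⊔ Submodule.span k (Mon (lf x g) '' {m' | ww D m < ww D m'}) ≤ V)
          (hG m hmG)
        rintro _ ⟨m', hm', rfl⟩
        have hm'' : ww D m < ww D m' := hm'
        exact ih m' (by omega)
  exact mem_of_Mon hR hg (fun f hf => hbV f (h𝔟 hf)) (fun m => key _ m le_rfl) f

lemma finrank_quot (𝔟 : Ideal R) (y : (Fin n → ℕ) → R) (G : Set (Fin n → ℕ)) (hfin : G.Finite)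
    (h : ∀ f : R, f ∈ (𝔟.restrictScalars k) ⊔ Submodule.span k (y '' G)) :
    Module.Finite k (R ⧸ 𝔟) ∧ Module.finrank k (R ⧸ 𝔟) ≤ G.ncard := by
  classical
  have hspan : Submodule.span k (((hfin.toFinset.image
      (fun m => (Ideal.Quotient.mk 𝔟 (y m) : R ⧸ 𝔟))) : Finset (R ⧸ 𝔟)) : Set (R ⧸ 𝔟)) = ⊤ := by
    rw [eq_top_iff]
    rintro q -
    obtain ⟨f, rfl⟩ := Ideal.Quotient.mk_surjective q
    obtain ⟨a, ha, b, hb, hab⟩ := Submodule.mem_sup.1 (h f)
    rw [← hab, map_add, Ideal.Quotient.eq_zero_iff_mem.2 (show a ∈ 𝔟 from ha), zero_add]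
    have h1 : Submodule.map (Ideal.Quotient.mkₐ k 𝔟).toLinearMap (Submodule.span k (y '' G)) ≤
        Submodule.span k (((hfin.toFinset.image
          (fun m => (Ideal.Quotient.mk 𝔟 (y m) : R ⧸ 𝔟))) : Finset (R ⧸ 𝔟)) : Set (R ⧸ 𝔟)) := by
      rw [Submodule.map_span, Submodule.span_le]
      rintro _ ⟨_, ⟨m, hm, rfl⟩, rfl⟩
      refine Submodule.subset_span ?_
      rw [Finset.mem_coe, Finset.mem_image]
      exact ⟨m, hfin.mem_toFinset.2 hm, rfl⟩
    exact h1 ⟨b, hb, rfl⟩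
  constructor
  · exact ⟨⟨_, hspan⟩⟩
  · have h1 := finrank_span_finset_le_card (R := k) (hfin.toFinset.image
      (fun m => (Ideal.Quotient.mk 𝔟 (y m) : R ⧸ 𝔟)))
    rw [Set.finrank, hspan, finrank_top] at h1
    refine h1.trans (Finset.card_image_le.trans ?_)
    rw [Set.ncard_eq_toFinset_card _ hfin]

/-- span of the monomials of weight `≥ w` -/
def KK (y : Fin n → R) (k : Type*) [Field k] [Algebra k R] (D w : ℕ) : Submodule k R :=
  Submodule.span k (Mon y '' {m | w ≤ ww D m})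

lemma KK_mul {y : Fin n → R} {D w w' : ℕ} {a b : R} (ha : a ∈ KK y k D w) (hb : b ∈ KK y k D w') :
    a * b ∈ KK y k D (w + w') := by
  have h1 := Submodule.mul_mem_mul ha hb
  unfold KK at h1
  rw [Submodule.span_mul_span] at h1
  refine Submodule.span_mono ?_ h1
  rintro _ ⟨_, ⟨m, hm, rfl⟩, _, ⟨m', hm', rfl⟩, rfl⟩
  refine ⟨m + m', ?_, Mon_add y m m'⟩
  have h1 : w ≤ ww D m := hm
  have h2 : w' ≤ ww D m' := hm'
  show w + w' ≤ ww D (m + m')
  rw [ww_add]
  omega

lemma KK_mono {y : Fin n → R} {D w w' : ℕ} (h : w ≤ w') : KK y k D w' ≤ KK y k D w := by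
  refine Submodule.span_mono (Set.image_mono ?_)
  intro m hm
  exact le_trans h hm

lemma Mon_mem_KK (y : Fin n → R) (D : ℕ) (m : Fin n → ℕ) : Mon y m ∈ KK y k D (ww D m) :=
  Submodule.subset_span ⟨m, by show ww D m ≤ ww D m; exact le_rfl, rfl⟩

/-- `m` is an initial exponent of an element of `𝔞` -/
def Ini (y : Fin n → R) (k : Type*) [Field k] [Algebra k R] (D : ℕ) (𝔞 : Ideal R) (m : Fin n → ℕ) : Prop :=
  ∃ F ∈ 𝔞, F - Mon y m ∈ KK y k D (ww D m + 1)

lemma Ini.mul {y : Fin n → R} {D : ℕ} {𝔞 𝔞' : Ideal R} {m m' : Fin n → ℕ} (h : Ini y k D 𝔞 m)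
    (h' : Ini y k D 𝔞' m') : Ini y k D (𝔞 * 𝔞') (m + m') := by
  obtain ⟨F, hF, hF'⟩ := h
  obtain ⟨G, hG, hG'⟩ := h'
  refine ⟨F * G, Ideal.mul_mem_mul hF hG, ?_⟩
  have h1 : F * G - Mon y (m + m') = (F - Mon y m) * G + Mon y m * (G - Mon y m') := by
    rw [Mon_add]; ring
  have hGK : G ∈ KK y k D (ww D m') := by
    have := (KK y k D (ww D m')).add_mem (KK_mono (Nat.le_succ _) hG') (Mon_mem_KK y D m')
    rwa [sub_add_cancel] at this
  rw [h1, ww_add]
  refine Submodule.add_mem _ ?_ ?_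
  · have := KK_mul hF' hGK
    rwa [add_right_comm] at this
  · have := KK_mul (Mon_mem_KK (k := k) y D m) hG'
    rwa [← add_assoc] at this

lemma Ini.mulMon {y : Fin n → R} {D : ℕ} {𝔞 : Ideal R} {m : Fin n → ℕ} (h : Ini y k D 𝔞 m)
    (m' : Fin n → ℕ) : Ini y k D 𝔞 (m + m') := by
  have h1 : Ini y k D (⊤ : Ideal R) m' := ⟨Mon y m', Submodule.mem_top, by simp⟩
  have h2 := h.mul h1
  rwa [Ideal.mul_top] at h2

lemma Ini.ss {y : Fin n → R} {D : ℕ} {𝔞 : Ideal R} {J : Set (Fin n → ℕ)}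
    (hJ : ∀ u ∈ J, Ini y k D 𝔞 u) {N : ℕ} {m : Fin n → ℕ} (h : SS J N m) : Ini y k D (𝔞 ^ N) m := by
  obtain ⟨s, hs, hsJ, hle⟩ := h
  have key : ∀ s : Multiset (Fin n → ℕ), (∀ u ∈ s, u ∈ J) → Ini y k D (𝔞 ^ (Multiset.card s)) s.sum := by
    intro s
    induction s using Multiset.induction_on with
    | empty =>
      intro _
      exact ⟨1, by simp, by simp [Mon_zero]⟩
    | cons a s ih =>
      intro hs
      rw [Multiset.card_cons, Multiset.sum_cons, pow_succ, mul_comm]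
      exact (hJ a (hs a (Multiset.mem_cons_self _ _))).mul
        (ih fun u hu => hs u (Multiset.mem_cons_of_mem hu))
  have h1 := (key s hsJ).mulMon (m - s.sum)
  rw [hs] at h1
  have h2 : s.sum + (m - s.sum) = m := by
    funext l
    have h3 : s.sum l ≤ m l := hle l
    show s.sum l + (m l - s.sum l) = m l
    omega
  rwa [h2] at h1

/-- bound for the dimension -/
lemma dim_bound (hR : Appr k x) {g : Matrix (Fin n) (Fin n) k} (hg : g.det ≠ 0) {D : ℕ} (hD : 1 ≤ D)
    {I : Ideal R} {D0 : ℕ} (hI : mm x ^ D0 ≤ I) {J : Set (Fin n → ℕ)}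
    (hJ : ∀ u ∈ J, Ini (lf x g) k D I u) (N j : ℕ) (𝔠 : Ideal R)
    (h𝔠 : ∀ s : Fin n, j ≤ (s : ℕ) → lf x g s ∈ 𝔠) (hfin : (Bad J j N).Finite) :
    Module.Finite k (R ⧸ (I ^ N ⊔ 𝔠)) ∧ Module.finrank k (R ⧸ (I ^ N ⊔ 𝔠)) ≤ (Bad J j N).ncard := by
  refine finrank_quot _ (Mon (lf x g)) _ hfin ?_
  refine span_quot hR hg hD (D' := D0 * N) ?_ _ ?_
  · rw [pow_mul]
    exact (Ideal.pow_right_mono hI N).trans le_sup_left
  · intro m hm
    by_cases h1 : ∀ l : Fin n, j ≤ (l : ℕ) → m l = 0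
    · have h2 : SS J N m := by
        by_contra hcon
        exact hm ⟨h1, hcon⟩
      obtain ⟨F, hF, hF'⟩ := Ini.ss hJ h2
      have h3 : Mon (lf x g) m = F + -(F - Mon (lf x g) m) := by ring
      rw [h3]
      refine Submodule.add_mem_sup ?_ (Submodule.neg_mem _ hF')
      exact (le_sup_left : I ^ N ≤ I ^ N ⊔ 𝔠) hF
    · push Not at h1
      obtain ⟨l, hl, hl'⟩ := h1
      refine Submodule.mem_sup_left ?_
      refine (le_sup_right : 𝔠 ≤ I ^ N ⊔ 𝔠) ?_
      unfold Mon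
      rw [← Finset.mul_prod_erase _ _ (Finset.mem_univ l)]
      exact Ideal.mul_mem_right _ _ (Ideal.pow_mem_of_mem _ (h𝔠 l hl) _ (Nat.pos_of_ne_zero hl'))

end

section MaxPair

variable {n : ℕ} {k : Type*} [Field k] {R : Type*} [CommRing R] [Algebra k R] {x : Fin n → R}

lemma mk_lf (I : Ideal R) (g : Matrix (Fin n) (Fin n) k) (s : Fin n) :
    Ideal.Quotient.mk I (lf x g s) = lf (fun t => Ideal.Quotient.mk I (x t)) g s := by
  unfold lf
  rw [map_sum]
  refine Finset.sum_congr rfl fun t _ => ?_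
  rw [Algebra.smul_def, map_mul, Algebra.smul_def]
  rfl

lemma mk_Mon (I : Ideal R) (g : Matrix (Fin n) (Fin n) k) (m : Fin n → ℕ) :
    Ideal.Quotient.mk I (Mon (lf x g) m) = Mon (lf (fun t => Ideal.Quotient.mk I (x t)) g) m := by
  rw [Mon_map]
  congr 1
  funext s
  exact mk_lf I g s

lemma finite_quot (hR : Appr k x) {I : Ideal R} {D : ℕ} (hI : mm x ^ D ≤ I) :
    Module.Finite k (R ⧸ I) := by
  refine (finrank_quot (k := k) I (Mon (lf x (1 : Matrix (Fin n) (Fin n) k))) (BD n D : Set _)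
    (Finset.finite_toSet _) ?_).1
  refine mem_of_Mon hR (g := 1) (by simp) (D' := D) (fun f hf => Submodule.mem_sup_left (hI hf)) ?_
  intro m
  by_cases hm : m ∈ BD n D
  · exact Submodule.mem_sup_right (Submodule.subset_span ⟨m, hm, rfl⟩)
  · rw [mem_BD] at hm
    push Not at hm
    exact Submodule.mem_sup_left (hI (Ideal.pow_le_pow_right hm (Mon_mem _ m)))

/-- the quotient has a monomial basis in the original coordinates -/
lemma exists_good (hR : Appr k x) {I : Ideal R} {D : ℕ} (hI : mm x ^ D ≤ I) :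
    ∃ S, Good (k := k) (fun t => Ideal.Quotient.mk I (x t)) D 1 S := by
  classical
  have hfin := finite_quot (k := k) hR hI
  let τ : (Fin n → ℕ) → R ⧸ I := Mon (lf (k := k) (fun t => Ideal.Quotient.mk I (x t)) 1)
  have hspan : Submodule.span k (τ '' (BD n D : Set (Fin n → ℕ))) = ⊤ := by
    rw [eq_top_iff]
    rintro q -
    obtain ⟨f, rfl⟩ := Ideal.Quotient.mk_surjective q
    refine mem_of_Mon (V := Submodule.comap (Ideal.Quotient.mkₐ k I).toLinearMap
      (Submodule.span k (τ '' (BD n D : Set (Fin n → ℕ))))) hR (g := 1) (by simp) (D' := D) ?_ ?_ f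
    · intro f hf
      show (Ideal.Quotient.mk I f : R ⧸ I) ∈ Submodule.span k (τ '' (BD n D : Set (Fin n → ℕ)))
      rw [Ideal.Quotient.eq_zero_iff_mem.2 (hI hf)]
      exact Submodule.zero_mem _
    · intro m
      show (Ideal.Quotient.mk I (Mon (lf x 1) m) : R ⧸ I) ∈
        Submodule.span k (τ '' (BD n D : Set (Fin n → ℕ)))
      by_cases hm : m ∈ BD n D
      · rw [mk_Mon]
        exact Submodule.subset_span ⟨m, hm, rfl⟩
      · rw [mem_BD] at hm
        push Not at hm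
        rw [Ideal.Quotient.eq_zero_iff_mem.2 (hI (Ideal.pow_le_pow_right hm (Mon_mem _ m)))]
        exact Submodule.zero_mem _
  obtain ⟨b, hbs, hbspan, hbli⟩ := exists_linearIndependent k (τ '' (BD n D : Set (Fin n → ℕ)))
  rw [hspan] at hbspan
  have hbfin : b.Finite := Set.Finite.subset (Set.Finite.image _ (Finset.finite_toSet _)) hbs
  have hch : ∀ v : R ⧸ I, ∃ m, v ∈ b → m ∈ BD n D ∧ τ m = v := by
    intro v
    by_cases hv : v ∈ b
    · obtain ⟨m, hm, hmv⟩ := hbs hv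
      exact ⟨m, fun _ => ⟨hm, hmv⟩⟩
    · exact ⟨0, fun h => absurd h hv⟩
  choose ch hch using hch
  refine ⟨hbfin.toFinset.image ch, by simp, ?_, ?_, ?_⟩
  · intro m hm
    obtain ⟨v, hv, rfl⟩ := Finset.mem_image.1 hm
    exact (hch v (hbfin.mem_toFinset.1 hv)).1
  · rw [eq_top_iff, ← hbspan]
    refine Submodule.span_mono ?_
    intro v hv
    refine ⟨ch v, ?_, (hch v hv).2⟩
    rw [Finset.mem_coe]
    exact Finset.mem_image_of_mem _ (hbfin.mem_toFinset.2 hv)
  · rw [Finset.card_image_of_injOn]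
    · have hb : Module.Basis b k (R ⧸ I) := Module.Basis.mk hbli (by rw [Subtype.range_coe, hbspan])
      have : Fintype b := hbfin.fintype
      rw [Module.finrank_eq_card_basis hb, Set.Finite.card_toFinset]
    · intro v hv v' hv' h
      rw [Finset.mem_coe, hbfin.mem_toFinset] at hv hv'
      rw [← (hch v hv).2, ← (hch v' hv').2, h]

/-- existence of a pair of maximal weight -/
lemma exists_max (hR : Appr k x) {I : Ideal R} {D : ℕ} (hI : mm x ^ D ≤ I) :
    ∃ (g : Matrix (Fin n) (Fin n) k) (S : Finset (Fin n → ℕ)),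
      Good (fun t => Ideal.Quotient.mk I (x t)) D g S ∧
      ∀ (g' : Matrix (Fin n) (Fin n) k) (S' : Finset (Fin n → ℕ)),
        Good (fun t => Ideal.Quotient.mk I (x t)) D g' S' →
        ∑ m ∈ S', ww D m ≤ ∑ m ∈ S, ww D m := by
  classical
  obtain ⟨S0, hS0⟩ := exists_good (k := k) hR hI
  obtain ⟨S, hS, hmax⟩ := Finset.exists_max_image ((BD n D).powerset.filter (fun S =>
    ∃ g : Matrix (Fin n) (Fin n) k, Good (fun t => Ideal.Quotient.mk I (x t)) D g S))
    (fun S => ∑ m ∈ S, ww D m) ⟨S0, Finset.mem_filter.2 ⟨Finset.mem_powerset.2 hS0.2.1, 1, hS0⟩⟩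
  obtain ⟨hSB, g, hg⟩ := Finset.mem_filter.1 hS
  refine ⟨g, S, hg, fun g' S' hg' => ?_⟩
  exact hmax S' (Finset.mem_filter.2 ⟨Finset.mem_powerset.2 hg'.2.1, g', hg'⟩)

/-- exponents outside `S` are initial exponents of `I` -/
lemma ini_of_max {I : Ideal R} {D : ℕ} (hI : mm x ^ D ≤ I) [Module.Finite k (R ⧸ I)]
    {g : Matrix (Fin n) (Fin n) k} {S : Finset (Fin n → ℕ)}
    (hg : Good (fun t => Ideal.Quotient.mk I (x t)) D g S)
    (hmax : ∀ (g' : Matrix (Fin n) (Fin n) k) (S' : Finset (Fin n → ℕ)),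
        Good (fun t => Ideal.Quotient.mk I (x t)) D g' S' →
        ∑ m ∈ S', ww D m ≤ ∑ m ∈ S, ww D m) {u : Fin n → ℕ} (hu : u ∉ S) : Ini (lf x g) k D I u := by
  classical
  by_cases huB : u ∈ BD n D
  · obtain ⟨hdet, hSB, hS⟩ := hg
    let τ : (Fin n → ℕ) → R ⧸ I := Mon (lf (k := k) (fun t => Ideal.Quotient.mk I (x t)) g)
    have hexch := fun (m : Fin n → ℕ) (hm : hS.coord (τ u) m ≠ 0) => exchange hS hSB (ww D) ww_inj_BD
      (fun S' hS' hB => hmax g S' ⟨hdet, hS', hB⟩) huB hu hm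
    refine ⟨Mon (lf x g) u - ∑ m ∈ S, hS.coord (τ u) m • Mon (lf x g) m, ?_, ?_⟩
    · rw [← Ideal.Quotient.eq_zero_iff_mem, map_sub, map_sum]
      have h1 := hS.sum_coord (τ u)
      rw [sub_eq_zero, mk_Mon]
      refine h1.symm.trans (Finset.sum_congr rfl fun m _ => ?_)
      rw [Algebra.smul_def, Algebra.smul_def, map_mul, mk_Mon]
      rfl
    · have h1 : Mon (lf x g) u - ∑ m ∈ S, hS.coord (τ u) m • Mon (lf x g) m - Mon (lf x g) u =
          -∑ m ∈ S, hS.coord (τ u) m • Mon (lf x g) m := by ring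
      rw [h1]
      refine Submodule.neg_mem _ (Submodule.sum_mem _ fun m _ => ?_)
      by_cases hc : hS.coord (τ u) m = 0
      · rw [hc, zero_smul]; exact Submodule.zero_mem _
      · exact Submodule.smul_mem _ _ (Submodule.subset_span ⟨m, (hexch m hc).2, rfl⟩)
  · rw [mem_BD] at huB
    push Not at huB
    refine ⟨Mon (lf x g) u, hI (Ideal.pow_le_pow_right huB (Mon_mem _ u)), ?_⟩
    rw [sub_self]
    exact Submodule.zero_mem _

end MaxPair

end Pool.Agent.N91.SL
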