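import Pool.Agent.N91.SL.Alg3
import Pool.Agent.Helper819.DC.COMP2

/-!
# Power series: genericity polynomial, lengths and the final estimate
-/

set_option autoImplicit false
set_option linter.unusedSectionVars false

namespace Pool.Agent.N91.SL

open Finset IsLocalRing

section PS

variable {n : ℕ} {k : Type} [Field k]

lemma mm_eq : mm (MvPowerSeries.X : Fin n → MvPowerSeries (Fin n) k) =
    maximalIdeal (MvPowerSeries (Fin n) k) := Pool.Agent.Helper819.DC.COMP2.max_eq_span_aux.symm

lemma appr : Appr k (MvPowerSeries.X : Fin n → MvPowerSeries (Fin n) k) := by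
  intro D
  induction D with
  | zero =>
    intro f
    exact ⟨0, Subalgebra.zero_mem _, by simp⟩
  | succ D ih =>
    intro f
    obtain ⟨c, hc⟩ := Pool.Agent.Helper819.DC.COMP2.residue_mv f
    rw [Pool.Agent.Helper819.DC.COMP2.max_eq_span_aux, Ideal.mem_span_range_iff_exists_fun] at hc
    obtain ⟨q, hq⟩ := hc
    choose p hp hqp using fun t => ih (q t)
    refine ⟨algebraMap k _ c + ∑ t, p t * MvPowerSeries.X t, ?_, ?_⟩
    · exact Subalgebra.add_mem _ (Subalgebra.algebraMap_mem _ _) (Subalgebra.sum_mem _ fun t _ =>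
        Subalgebra.mul_mem _ (hp t) (Algebra.subset_adjoin (Set.mem_range_self t)))
    · have h1 : f - (algebraMap k _ c + ∑ t, p t * MvPowerSeries.X t) =
          ∑ t, (q t - p t) * MvPowerSeries.X t := by
        simp only [sub_mul, Finset.sum_sub_distrib]
        rw [hq]
        ring
      rw [h1, pow_succ]
      exact Ideal.sum_mem _ fun t _ => Ideal.mul_mem_mul (hqp t) (Ideal.subset_span ⟨t, rfl⟩)

/-- Length over a local `k`-algebra with residue field `k` is the dimension over `k`. -/
lemma length_eq (𝔟 : Ideal (MvPowerSeries (Fin n) k)) [Module.Finite k (MvPowerSeries (Fin n) k ⧸ 𝔟)] :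
    (Module.length (MvPowerSeries (Fin n) k) (MvPowerSeries (Fin n) k ⧸ 𝔟)).toNat =
      Module.finrank k (MvPowerSeries (Fin n) k ⧸ 𝔟) := by
  set S := MvPowerSeries (Fin n) k with hS
  have h1 := IsLocalRing.length_restrictScalars k S (S ⧸ 𝔟)
  have h2 := IsLocalRing.length_restrictScalars k S (S ⧸ maximalIdeal S)
  have h3 : Module.length S (S ⧸ maximalIdeal S) = 1 := by
    rw [Module.length_eq_one_iff, isSimpleModule_iff_isCoatom]
    exact (maximalIdeal.isMaximal S).out
  have h4 : Module.length k (S ⧸ maximalIdeal S) = 1 := by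
    have hb : Function.Bijective (Algebra.linearMap k (S ⧸ maximalIdeal S)) := by
      constructor
      · exact (algebraMap k (S ⧸ maximalIdeal S)).injective
      · intro x
        obtain ⟨s, rfl⟩ := Ideal.Quotient.mk_surjective x
        obtain ⟨c, hc⟩ := Pool.Agent.Helper819.DC.COMP2.residue_mv s
        refine ⟨c, ?_⟩
        rw [← sub_eq_zero, Algebra.linearMap_apply, ← neg_eq_zero, neg_sub]
        exact Ideal.Quotient.eq_zero_iff_mem.2 hc
    rw [← (LinearEquiv.ofBijective _ hb).length_eq, Module.length_eq_one_iff]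
    infer_instance
  rw [h3, h4, one_mul] at h2
  rw [← h2, mul_one, Module.length_eq_finrank] at h1
  rw [← h1]
  rfl

end PS

section Poly

variable {k : Type} [Field k] {Q : Type} [CommRing Q] [Algebra k Q] {σ : Type}

/-- apply a linear functional to the coefficients -/
noncomputable def coP (φ : Q →ₗ[k] k) (F : MvPolynomial σ Q) : MvPolynomial σ k :=
  ∑ μ ∈ F.support, MvPolynomial.monomial μ (φ (MvPolynomial.coeff μ F))

lemma eval_coP (φ : Q →ₗ[k] k) (F : MvPolynomial σ Q) (c : σ → k) :
    MvPolynomial.eval c (coP φ F) = φ (MvPolynomial.eval (fun p => algebraMap k Q (c p)) F) := by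
  unfold coP
  rw [map_sum, MvPolynomial.eval_eq, map_sum]
  refine Finset.sum_congr rfl fun μ _ => ?_
  rw [MvPolynomial.eval_monomial]
  have h1 : ∏ i ∈ μ.support, algebraMap k Q (c i) ^ μ i = algebraMap k Q (μ.prod fun p e => c p ^ e) := by
    rw [Finsupp.prod, map_prod]
    exact Finset.prod_congr rfl fun i _ => by rw [map_pow]
  rw [h1, mul_comm (MvPolynomial.coeff μ F), ← Algebra.smul_def, map_smul, smul_eq_mul, mul_comm]

end Poly

section Gen

variable {k : Type} [Field k] {d : ℕ}

/-- the coordinate change attached to the linear forms -/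
def gc (v : Fin (d + 1) → k) (c : Fin d → Fin (d + 1) → k) : Matrix (Fin (d + 1)) (Fin (d + 1)) k :=
  Matrix.of (Fin.cons v (fun s => c (Fin.rev s)))

lemma gc_zero (v : Fin (d + 1) → k) (c : Fin d → Fin (d + 1) → k) : gc v c 0 = v := rfl

lemma gc_succ (v : Fin (d + 1) → k) (c : Fin d → Fin (d + 1) → k) (s : Fin d) :
    gc v c s.succ = c (Fin.rev s) := rfl

lemma gc_self (g : Matrix (Fin (d + 1)) (Fin (d + 1)) k) :
    gc (g 0) (fun j => g (Fin.rev j).succ) = g := by
  funext s
  refine Fin.cases ?_ (fun s => ?_) s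
  · rfl
  · rw [gc_succ, Fin.rev_rev]

/-- the determinant polynomial -/
lemma exists_poly_det (v : Fin (d + 1) → k) : ∃ P : MvPolynomial (Fin d × Fin (d + 1)) k,
    ∀ c : Fin d → Fin (d + 1) → k, MvPolynomial.eval (fun p => c p.1 p.2) P = (gc v c).det := by
  let M : Matrix (Fin (d + 1)) (Fin (d + 1)) (MvPolynomial (Fin d × Fin (d + 1)) k) :=
    Matrix.of (Fin.cons (fun t => MvPolynomial.C (v t)) (fun s t => MvPolynomial.X (Fin.rev s, t)))
  refine ⟨M.det, fun c => ?_⟩
  rw [RingHom.map_det]
  congr 1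
  ext s t
  rw [RingHom.mapMatrix_apply, Matrix.map_apply]
  refine Fin.cases ?_ (fun s => ?_) s
  · show MvPolynomial.eval _ (MvPolynomial.C (v t)) = v t
    rw [MvPolynomial.eval_C]
  · show MvPolynomial.eval _ (MvPolynomial.X (Fin.rev s, t)) = c (Fin.rev s) t
    rw [MvPolynomial.eval_X]

variable {Q : Type} [CommRing Q] [Algebra k Q] [FiniteDimensional k Q]

/-- the basis polynomial -/
lemma exists_poly_basis (x : Fin (d + 1) → Q) (v : Fin (d + 1) → k)
    (S : Finset (Fin (d + 1) → ℕ)) (b : Module.Basis S k Q) :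
    ∃ P : MvPolynomial (Fin d × Fin (d + 1)) k, ∀ c : Fin d → Fin (d + 1) → k,
      MvPolynomial.eval (fun p => c p.1 p.2) P =
        b.det (fun s => Mon (lf x (gc v c)) ((Equiv.refl S s : S) : Fin (d + 1) → ℕ)) := by
  classical
  let y : Fin (d + 1) → MvPolynomial (Fin d × Fin (d + 1)) Q :=
    Fin.cons (MvPolynomial.C (∑ t, v t • x t))
      (fun s => ∑ t, MvPolynomial.X (Fin.rev s, t) * MvPolynomial.C (x t))
  have hy : ∀ (c : Fin d → Fin (d + 1) → k) (s : Fin (d + 1)),
      MvPolynomial.eval (fun p : Fin d × Fin (d + 1) => algebraMap k Q (c p.1 p.2)) (y s) =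
        lf x (gc v c) s := by
    intro c s
    refine Fin.cases ?_ (fun s => ?_) s
    · show MvPolynomial.eval _ (MvPolynomial.C (∑ t, v t • x t)) = _
      rw [MvPolynomial.eval_C]
      rfl
    · show MvPolynomial.eval _ (∑ t, MvPolynomial.X (Fin.rev s, t) * MvPolynomial.C (x t)) = _
      rw [map_sum]
      unfold lf
      refine Finset.sum_congr rfl fun t _ => ?_
      rw [map_mul, MvPolynomial.eval_X, MvPolynomial.eval_C, gc_succ, Algebra.smul_def]
  let M : Matrix S S (MvPolynomial (Fin d × Fin (d + 1)) k) :=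
    Matrix.of fun r s => coP (b.coord r) (Mon y (s : Fin (d + 1) → ℕ))
  refine ⟨M.det, fun c => ?_⟩
  rw [RingHom.map_det, Module.Basis.det_apply]
  congr 1
  ext r s
  rw [RingHom.mapMatrix_apply, Matrix.map_apply, Module.Basis.toMatrix_apply]
  show MvPolynomial.eval _ (coP (b.coord r) (Mon y (s : Fin (d + 1) → ℕ))) = _
  rw [eval_coP, Mon_map]
  have h1 : (fun s => MvPolynomial.eval (fun p : Fin d × Fin (d + 1) => algebraMap k Q (c p.1 p.2))
      (y s)) = lf x (gc v c) := funext (hy c)
  rw [h1]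
  rfl

end Gen

section Limit

lemma tendsto_ratio (j : ℕ) (G : ℝ) :
    Filter.Tendsto (fun N : ℕ => G * (((N : ℝ) + j) / N) ^ j) Filter.atTop (nhds G) := by
  have h1 : Filter.Tendsto (fun N : ℕ => ((N : ℝ) + j) / N) Filter.atTop (nhds 1) := by
    have h2 : Filter.Tendsto (fun N : ℕ => 1 + (j : ℝ) / N) Filter.atTop (nhds (1 + 0)) :=
      tendsto_const_nhds.add (tendsto_const_div_atTop_nhds_zero_nat (j : ℝ))
    rw [add_zero] at h2
    refine h2.congr' ?_
    filter_upwards [Filter.eventually_ge_atTop 1] with N hN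
    have : (N : ℝ) ≠ 0 := by positivity
    field_simp
  have h3 := (h1.pow j).const_mul G
  simpa using h3

end Limit

end Pool.Agent.N91.SL
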