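import Mathlib

/-!
# Counting words by stabilisers

`∑_j s(n,j) G j ≤ n! * #{monotone words in X}` for a symmetric finite set of words `X` and a function `G`
such that for every subexcedant map `c` with `j` fixed points at least `G j` words of `X` are compatible with `c`.
-/

set_option autoImplicit false

namespace Pool.Agent.N91.SL

open Finset

/-- product of ranks in a finite linear order -/
lemma prod_rank {α : Type*} [LinearOrder α] (F : Finset α) :
    ∏ t ∈ F, (F.filter (fun s => s ≤ t)).card = (F.card).factorial := by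
  induction F using Finset.induction_on_max with
  | empty => simp
  | insert a s ha ih =>
    have has : a ∉ s := fun h => lt_irrefl _ (ha a h)
    rw [Finset.prod_insert has, Finset.card_insert_of_notMem has, Nat.factorial_succ, ← ih]
    congr 1
    · rw [Finset.filter_true_of_mem, Finset.card_insert_of_notMem has]
      intro x hx
      rcases Finset.mem_insert.1 hx with rfl | hx
      · exact le_rfl
      · exact (ha x hx).le
    · refine Finset.prod_congr rfl fun t ht => ?_
      rw [Finset.filter_insert, if_neg (not_le.2 (ha t ht))]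

/-- the order of the stabiliser of a word as a product of ranks -/
lemma card_stab {n : ℕ} (w : Fin n → ℕ) :
    Fintype.card {σ : Equiv.Perm (Fin n) // w ∘ σ = w} =
      ∏ t : Fin n, (univ.filter (fun s : Fin n => s ≤ t ∧ w s = w t)).card := by
  classical
  rw [DomMulAct.stabilizer_card']
  rw [← Finset.prod_fiberwise_of_maps_to (s := univ) (t := univ.image w) (g := w)
    (fun i _ => Finset.mem_image_of_mem w (Finset.mem_univ i))]
  refine Finset.prod_congr rfl fun i _ => ?_
  rw [Fintype.card_subtype, ← prod_rank]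
  refine Finset.prod_congr rfl fun t ht => ?_
  congr 1
  ext s
  simp only [Finset.mem_filter, Finset.mem_univ, true_and] at ht ⊢
  rw [ht]
  exact and_comm

/-- maps `c` with `c t ≤ t` -/
def Sub (n : ℕ) : Finset (Fin n → Fin n) := Fintype.piFinset (fun t => Finset.Iic t)

lemma mem_Sub {n : ℕ} {c : Fin n → Fin n} : c ∈ Sub n ↔ ∀ t, c t ≤ t := by
  simp [Sub, Fintype.mem_piFinset]

/-- number of fixed points -/
def nfix {n : ℕ} (c : Fin n → Fin n) : ℕ := (univ.filter (fun t => c t = t)).card

lemma asc_prod (n : ℕ) : ascPochhammer ℕ n = ∏ t : Fin n, (Polynomial.X + ((t : ℕ) : Polynomial ℕ)) := by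
  induction n with
  | zero => simp
  | succ n ih => rw [ascPochhammer_succ_right, ih, Fin.prod_univ_castSucc]; simp

lemma asc_sum (n : ℕ) : ascPochhammer ℕ n = ∑ c ∈ Sub n, Polynomial.X ^ (nfix c) := by
  classical
  have h1 : ∀ t : Fin n, (Polynomial.X + ((t : ℕ) : Polynomial ℕ)) =
      ∑ a ∈ Finset.Iic t, (if a = t then (Polynomial.X : Polynomial ℕ) else 1) := by
    intro t
    rw [Finset.sum_ite, Finset.sum_const, Finset.sum_const, Finset.filter_eq',
      if_pos (Finset.mem_Iic.2 le_rfl), Finset.card_singleton, one_smul]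
    congr 1
    have : (Finset.Iic t).filter (fun a => ¬ a = t) = Finset.Iio t := by
      ext a; simp only [Finset.mem_filter, Finset.mem_Iic, Finset.mem_Iio]
      exact ⟨fun h => lt_of_le_of_ne h.1 h.2, fun h => ⟨h.le, h.ne⟩⟩
    rw [this, Fin.card_Iio, nsmul_eq_mul, mul_one]
  rw [asc_prod, Finset.prod_congr rfl (fun t _ => h1 t), Finset.prod_univ_sum]
  refine Finset.sum_congr rfl fun c _ => ?_
  rw [Finset.prod_ite, Finset.prod_const, Finset.prod_const_one, mul_one]
  rfl

lemma card_nfix (n j : ℕ) :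
    ((Sub n).filter (fun c => nfix c = j)).card = (ascPochhammer ℕ n).coeff j := by
  rw [asc_sum, Polynomial.finsetSum_coeff]
  simp only [Polynomial.coeff_X_pow]
  rw [Finset.card_filter]
  refine Finset.sum_congr rfl fun c _ => ?_
  by_cases h : nfix c = j
  · rw [if_pos h, if_pos h.symm]
  · rw [if_neg h, if_neg (fun h' => h h'.symm)]

lemma nfix_le {n : ℕ} (c : Fin n → Fin n) : nfix c ≤ n := by
  unfold nfix
  exact le_trans (Finset.card_le_univ _) (by simp)

lemma sum_nfix (n : ℕ) (G : ℕ → ℕ) :
    ∑ c ∈ Sub n, G (nfix c) = ∑ j ∈ range (n + 1), (ascPochhammer ℕ n).coeff j * G j := by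
  rw [← Finset.sum_fiberwise_of_maps_to (s := Sub n) (t := range (n + 1)) (g := fun c => nfix c)
    (fun c _ => Finset.mem_range.2 (Nat.lt_succ_of_le (nfix_le c)))]
  refine Finset.sum_congr rfl fun j _ => ?_
  rw [← card_nfix, ← smul_eq_mul, ← Finset.sum_const]
  refine Finset.sum_congr rfl fun c hc => ?_
  rw [(Finset.mem_filter.1 hc).2]

/-- double counting: pairs (word, subexcedant map compatible with the word) -/
lemma sum_compat {n : ℕ} (X : Finset (Fin n → ℕ)) :
    ∑ c ∈ Sub n, (X.filter (fun w => ∀ t, w (c t) = w t)).card =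
      ∑ w ∈ X, Fintype.card {σ : Equiv.Perm (Fin n) // w ∘ σ = w} := by
  classical
  simp only [Finset.card_filter]
  rw [Finset.sum_comm]
  refine Finset.sum_congr rfl fun w _ => ?_
  rw [← Finset.card_filter, card_stab, ← Fintype.card_piFinset]
  congr 1
  ext c
  simp only [Finset.mem_filter, mem_Sub, Fintype.mem_piFinset, Finset.mem_univ, true_and]
  exact ⟨fun h t => ⟨h.1 t, h.2 t⟩, fun h => ⟨fun t => (h t).1, fun t => (h t).2⟩⟩

/-- double counting: pairs (word, permutation fixing it) inject into (monotone word, permutation) -/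
lemma sum_stab_le {n : ℕ} (X : Finset (Fin n → ℕ))
    (hX : ∀ v ∈ X, ∀ σ : Equiv.Perm (Fin n), v ∘ σ ∈ X) :
    ∑ w ∈ X, Fintype.card {σ : Equiv.Perm (Fin n) // w ∘ σ = w} ≤
      n.factorial * (X.filter (fun w => ∀ s t, s ≤ t → w s ≤ w t)).card := by
  classical
  have h1 : ∑ w ∈ X, Fintype.card {σ : Equiv.Perm (Fin n) // w ∘ σ = w} =
      (X.sigma (fun w => (univ : Finset (Equiv.Perm (Fin n))).filter
        (fun σ : Equiv.Perm (Fin n) => w ∘ (σ : Fin n → Fin n) = w))).card := by
    rw [Finset.card_sigma]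
    refine Finset.sum_congr rfl fun w _ => ?_
    rw [Fintype.card_subtype]
  have h2 : n.factorial * (X.filter (fun w => ∀ s t, s ≤ t → w s ≤ w t)).card =
      ((X.filter (fun w => ∀ s t, s ≤ t → w s ≤ w t)) ×ˢ (univ : Finset (Equiv.Perm (Fin n)))).card := by
    rw [Finset.card_product, Finset.card_univ, Fintype.card_perm, Fintype.card_fin, mul_comm]
  rw [h1, h2]
  refine Finset.card_le_card_of_injOn (fun p => (p.1 ∘ (Tuple.sort p.1), (Tuple.sort p.1).trans p.2)) ?_ ?_
  · rintro ⟨w, σ⟩ hw
    simp only [Finset.coe_sigma, Set.mem_sigma_iff, Finset.mem_coe, Finset.mem_filter, Finset.mem_univ,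
      true_and] at hw
    simp only [Finset.coe_product, Finset.coe_univ, Set.mem_prod, Finset.mem_coe, Finset.mem_filter,
      Set.mem_univ, and_true]
    exact ⟨hX w hw.1 _, fun s t hst => Tuple.monotone_sort w hst⟩
  · rintro ⟨w, σ⟩ hw ⟨w', σ'⟩ hw' h
    simp only [Finset.coe_sigma, Set.mem_sigma_iff, Finset.mem_coe, Finset.mem_filter, Finset.mem_univ,
      true_and] at hw hw'
    simp only [Prod.mk.injEq] at h
    obtain ⟨ha, hτ⟩ := h
    have key : ∀ (u : Fin n → ℕ) (ρ : Equiv.Perm (Fin n)), u ∘ ρ = u →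
        u = (u ∘ Tuple.sort u) ∘ ((Tuple.sort u).trans ρ).symm := by
      intro u ρ hu
      funext x
      have h3 : ∀ y, u (ρ y) = u y := fun y => congrFun hu y
      simp only [Function.comp_apply, Equiv.symm_trans_apply, Equiv.apply_symm_apply]
      rw [← h3 (ρ.symm x), Equiv.apply_symm_apply]
    have hww : w = w' := by
      rw [key w σ hw.2, key w' σ' hw'.2, ha, hτ]
    subst hww
    have : σ = σ' := by
      ext x
      have := Equiv.congr_fun hτ ((Tuple.sort w).symm x)
      simp only [Equiv.trans_apply, Equiv.apply_symm_apply] at this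
      rw [this]
    rw [this]

/-- The main counting inequality. -/
theorem count_main {n : ℕ} (X : Finset (Fin n → ℕ))
    (hX : ∀ v ∈ X, ∀ σ : Equiv.Perm (Fin n), v ∘ σ ∈ X) (G : ℕ → ℕ)
    (hG : ∀ c ∈ Sub n, G (nfix c) ≤ (X.filter (fun w => ∀ t, w (c t) = w t)).card) :
    ∑ j ∈ range (n + 1), (ascPochhammer ℕ n).coeff j * G j ≤
      n.factorial * (X.filter (fun w => ∀ s t, s ≤ t → w s ≤ w t)).card := by
  rw [← sum_nfix]
  refine le_trans (Finset.sum_le_sum hG) ?_
  rw [sum_compat]
  exact sum_stab_le X hX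

end Pool.Agent.N91.SL
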