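import Pool.Agent.N91.SL.Alg4

/-!
# The Stirling number refinement of Lech's inequality
-/

set_option autoImplicit false
set_option linter.unusedSectionVars false

namespace Pool.Agent.N91.SL

open Finset IsLocalRing

theorem main (k : Type) [Field k] [Infinite k] (d : ℕ) (I : Ideal (MvPowerSeries (Fin (d+1)) k))
    (hI : I.radical =
      Ideal.span (Set.range (MvPowerSeries.X : Fin (d+1) → MvPowerSeries (Fin (d+1)) k))) :
    ∃ P : MvPolynomial (Fin d × Fin (d+1)) k, P ≠ 0 ∧
      ∀ c : Fin d → Fin (d+1) → k, MvPolynomial.eval (fun p => c p.1 p.2) P ≠ 0 →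
        ∀ e : Fin d → ℝ,
          (∀ i : Fin d, Filter.Tendsto
            (fun n : ℕ => ((Nat.factorial (d+1-i.val) : ℝ) *
              ((Module.length (MvPowerSeries (Fin (d+1)) k)
                (MvPowerSeries (Fin (d+1)) k ⧸
                  (I ^ n ⊔ Ideal.span {f : MvPowerSeries (Fin (d+1)) k |
                    ∃ j : Fin d, j.val < i.val ∧
                      f = ∑ t : Fin (d+1), c j t • (MvPowerSeries.X t : MvPowerSeries (Fin (d+1)) k)}))).toNat : ℝ))
              / (n : ℝ) ^ (d+1-i.val))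
            Filter.atTop (nhds (e i))) →
          ∑ i : Fin d, ((ascPochhammer ℕ (d+1)).coeff (d+1-i.val) : ℝ) * e i
            ≤ (Nat.factorial (d+1) : ℝ) *
              ((Module.length (MvPowerSeries (Fin (d+1)) k)
                (MvPowerSeries (Fin (d+1)) k ⧸ I)).toNat : ℝ) := by
  classical
  set R := MvPowerSeries (Fin (d+1)) k with hR
  let x : Fin (d+1) → R := MvPowerSeries.X
  have hx : Appr k x := appr
  obtain ⟨D, hD, hID⟩ : ∃ D, 2 ≤ D ∧ mm x ^ D ≤ I := by
    have hfg : I.radical.FG := by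
      rw [hI]
      exact ⟨Finset.univ.image MvPowerSeries.X, by rw [Finset.coe_image, Finset.coe_univ, Set.image_univ]⟩
    obtain ⟨D, hD⟩ := Ideal.exists_radical_pow_le_of_fg I hfg
    rw [hI] at hD
    exact ⟨D + 2, by omega, (Ideal.pow_le_pow_right (by omega)).trans hD⟩
  obtain ⟨g, S, hg, hmax⟩ := exists_max (k := k) hx hID
  have hfinQ : Module.Finite k (R ⧸ I) := finite_quot (k := k) hx hID
  let xb : Fin (d+1) → R ⧸ I := fun t => Ideal.Quotient.mk I (x t)
  let J : Set (Fin (d+1) → ℕ) := {m | m ∉ S}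
  have hBT : BT J := borel hD hg hmax
  have hJD : ∀ m : Fin (d+1) → ℕ, D ≤ ∑ i, m i → m ∈ J := by
    intro m hm hmS
    have := hg.2.1 hmS
    rw [mem_BD] at this
    omega
  obtain ⟨G, r0, hr0, hcount, hbad⟩ := comb hJD hBT S (fun m hm => by
    by_contra hcon
    exact hm hcon)
  obtain ⟨P1, hP1⟩ := exists_poly_det (g 0)
  obtain ⟨P2, hP2⟩ := exists_poly_basis xb (g 0) S hg.2.2.basis
  refine ⟨P1 * P2, ?_, ?_⟩
  · intro h0
    have h1 := congrArg (MvPolynomial.eval (fun p : Fin d × Fin (d+1) => g (Fin.rev p.1).succ p.2)) h0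
    rw [map_mul, map_zero] at h1
    have h2 := hP1 (fun j => g (Fin.rev j).succ)
    have h3 := hP2 (fun j => g (Fin.rev j).succ)
    rw [gc_self] at h2 h3
    rw [h2, h3] at h1
    rcases mul_eq_zero.1 h1 with h | h
    · exact hg.1 h
    · exact (isB_iff_det hg.2.2.basis (Mon (lf xb g)) (Equiv.refl S)).1 hg.2.2 h
  · intro c hc e he
    rw [map_mul, hP1, hP2] at hc
    have hdet := left_ne_zero_of_mul hc
    have hB := (isB_iff_det hg.2.2.basis (Mon (lf xb (gc (g 0) c))) (Equiv.refl S)).2
      (right_ne_zero_of_mul hc)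
    have hgc : Good xb D (gc (g 0) c) S := ⟨hdet, hg.2.1, hB⟩
    have hIni : ∀ u ∈ J, Ini (lf x (gc (g 0) c)) k D I u := fun u hu =>
      ini_of_max hID hgc hmax hu
    have hle : ∀ i : Fin d, e i ≤ G (d + 1 - i.val) := by
      intro i
      set j := d + 1 - i.val with hj
      have hsub : Filter.Tendsto (fun N : ℕ => r0 * N) Filter.atTop Filter.atTop :=
        Filter.tendsto_id.const_mul_atTop' hr0
      have h1 := (he i).comp hsub
      refine le_of_tendsto_of_tendsto h1 (tendsto_ratio j (G j)) ?_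
      filter_upwards [Filter.eventually_ge_atTop 1] with N hN
      simp only [Function.comp_apply]
      set 𝔠 : Ideal R := Ideal.span {f : R | ∃ j : Fin d, j.val < i.val ∧
        f = ∑ t : Fin (d+1), c j t • (MvPowerSeries.X t : R)} with h𝔠
      have h𝔠' : ∀ s : Fin (d+1), j ≤ (s : ℕ) → lf x (gc (g 0) c) s ∈ 𝔠 := by
        intro s
        refine Fin.cases ?_ (fun s => ?_) s
        · intro h
          have := i.2
          simp only [Fin.val_zero] at h
          omega
        · intro h
          refine Ideal.subset_span ⟨Fin.rev s, ?_, ?_⟩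
          · rw [Fin.val_rev]
            have := i.2
            rw [Fin.val_succ] at h
            omega
          · rfl
      obtain ⟨hbfin, hbcard⟩ := hbad j (by omega) N hN
      obtain ⟨hfin, hdim⟩ := dim_bound hx hdet (by omega : 1 ≤ D) hID hIni (r0 * N) j 𝔠 h𝔠' hbfin
      rw [length_eq (I ^ (r0 * N) ⊔ 𝔠)]
      have hNpos : (0 : ℝ) < N := by exact_mod_cast hN
      have hr0pos : (0 : ℝ) < r0 := by exact_mod_cast hr0
      have h2 : ((j.factorial : ℝ) * (Module.finrank k (R ⧸ (I ^ (r0 * N) ⊔ 𝔠)) : ℝ)) ≤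
          (G j : ℝ) * (((N : ℝ) + j) ^ j * (r0 : ℝ) ^ j) := by
        have h3 : Module.finrank k (R ⧸ (I ^ (r0 * N) ⊔ 𝔠)) * j.factorial ≤
            G j * ((N + j) ^ j * r0 ^ j) := (Nat.mul_le_mul_right _ hdim).trans hbcard
        have h4 : ((Module.finrank k (R ⧸ (I ^ (r0 * N) ⊔ 𝔠)) * j.factorial : ℕ) : ℝ) ≤
            ((G j * ((N + j) ^ j * r0 ^ j) : ℕ) : ℝ) := by exact_mod_cast h3
        push_cast at h4
        rw [mul_comm]
        exact h4
      rw [div_le_iff₀ (by push_cast; positivity)]
      refine h2.trans (le_of_eq ?_)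
      push_cast
      rw [← hj, div_pow, mul_pow]
      field_simp
    have hlen : (S.card : ℝ) = ((Module.length R (R ⧸ I)).toNat : ℝ) := by
      rw [length_eq I, hg.2.2.2]
    rw [← hlen]
    calc ∑ i : Fin d, ((ascPochhammer ℕ (d+1)).coeff (d+1-i.val) : ℝ) * e i
        ≤ ∑ i : Fin d, ((ascPochhammer ℕ (d+1)).coeff (d+1-i.val) : ℝ) * G (d + 1 - i.val) :=
          Finset.sum_le_sum fun i _ => mul_le_mul_of_nonneg_left (hle i) (Nat.cast_nonneg _)
      _ = ((∑ i : Fin d, (ascPochhammer ℕ (d+1)).coeff (d+1-i.val) * G (d + 1 - i.val) : ℕ) : ℝ) := by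
          push_cast; rfl
      _ ≤ (((d+1).factorial * S.card : ℕ) : ℝ) := by
          refine Nat.cast_le.2 (le_trans ?_ hcount)
          have hinj : Set.InjOn (fun i : Fin d => d + 1 - i.val) (Finset.univ : Finset (Fin d)) := by
            intro a _ b _ h
            simp only at h
            have := a.2
            have := b.2
            rw [Fin.ext_iff]
            omega
          rw [← Finset.sum_image (g := fun i : Fin d => d + 1 - i.val)
            (f := fun j => (ascPochhammer ℕ (d+1)).coeff j * G j) hinj]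
          refine Finset.sum_le_sum_of_subset ?_
          intro j hj
          obtain ⟨i, -, rfl⟩ := Finset.mem_image.1 hj
          rw [Finset.mem_range]
          omega
      _ = ((d+1).factorial : ℝ) * (S.card : ℝ) := by push_cast; rfl

end Pool.Agent.N91.SL
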